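import Mathlib

/-!
# Quasisymmetric functions of multisets of permutations

Definitions: descent sets, Gessel's fundamental quasisymmetric functions (as power series in
infinitely many variables), the quasisymmetric function of a multiset of permutations, products of
multisets of permutations, inverse descent classes.
-/

set_option autoImplicit false

namespace Pool.Agent.R859.QS

/-- The descent set `Des(π) = {i ∈ [n-1] : π(i) > π(i+1)}`. Positions and values of `π` are
`0, …, n-1` here, so `i` is a descent if the value at the position `i` (counted from `0`) is smaller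
than the value at the position `i - 1`. -/
def Des {n : ℕ} (π : Equiv.Perm (Fin n)) : Finset ℕ :=
  (Finset.Ioo 0 n).filter fun i => ∃ a b : Fin n, a.val + 1 = i ∧ b.val = i ∧ π b < π a

/-- The exponent of the monomial `x_{w_1} x_{w_2} ⋯ x_{w_n}`. -/
noncomputable def cont {n : ℕ} (w : Fin n → ℕ) : ℕ →₀ ℕ := ∑ i : Fin n, Finsupp.single (w i) 1

/-- Gessel's fundamental quasisymmetric function `F_{n,D}`, as a formal power series in the
variables `x_0, x_1, x_2, …`: the coefficient of a monomial is the number of the sequences
`i_1 ≤ i_2 ≤ ⋯ ≤ i_n` with `i_j < i_{j+1}` for `j ∈ D` whose product is that monomial. -/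
noncomputable def fund (n : ℕ) (D : Finset ℕ) : MvPowerSeries ℕ ℤ := fun m =>
  (Nat.card {i : Fin n → ℕ // Monotone i ∧
    (∀ j k : Fin n, k.val = j.val + 1 → j.val + 1 ∈ D → i j < i k) ∧ cont i = m} : ℤ)

/-- The quasisymmetric function `𝒬(A)` of a multiset `A` of permutations. -/
noncomputable def QF {n : ℕ} (A : Multiset (Equiv.Perm (Fin n))) : MvPowerSeries ℕ ℤ :=
  (A.map fun π => fund n (Des π)).sum

/-- A power series is symmetric if its coefficients do not change when the variables are
permuted. -/
def IsSymm (f : MvPowerSeries ℕ ℤ) : Prop :=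
  ∀ (σ : Equiv.Perm ℕ) (m : ℕ →₀ ℕ),
    MvPowerSeries.coeff (m.mapDomain σ) f = MvPowerSeries.coeff m f

/-- The multiset of the products `a b` with `a ∈ A`, `b ∈ B`, where `(a b)(i) = a (b i)`. -/
def prodM {n : ℕ} (A B : Multiset (Equiv.Perm (Fin n))) : Multiset (Equiv.Perm (Fin n)) :=
  (A ×ˢ B).map fun p => p.1 * p.2

/-- The inverse descent class `{π ∈ S_n : Des(π⁻¹) = J}`. -/
def invDes (n : ℕ) (J : Finset ℕ) : Multiset (Equiv.Perm (Fin n)) :=
  ((Finset.univ : Finset (Equiv.Perm (Fin n))).filter fun π => Des π⁻¹ = J).val

end Pool.Agent.R859.QS
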