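import Mathlib
import Pool.Agent.R859.QS.Defs

set_option autoImplicit false

namespace Pool.Agent.R859.QS

open Finset

variable {n : ℕ}

theorem cont_comp_perm (w : Fin n → ℕ) (σ : Equiv.Perm (Fin n)) : cont (w ∘ σ) = cont w :=
  Equiv.sum_comp σ (fun i => Finsupp.single (w i) 1)

theorem cont_map (φ : ℕ → ℕ) (w : Fin n → ℕ) : cont (φ ∘ w) = (cont w).mapDomain φ := by
  simp [cont, Finsupp.mapDomain_finsetSum, Finsupp.mapDomain_single]

theorem cont_apply_pos (w : Fin n → ℕ) (i : Fin n) : 0 < cont w (w i) := by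
  classical
  unfold cont
  rw [Finsupp.finsetSum_apply]
  refine Finset.sum_pos' (fun _ _ => Nat.zero_le _) ⟨i, Finset.mem_univ _, ?_⟩
  simp

/-- The words with given content. -/
noncomputable def W (n : ℕ) (m : ℕ →₀ ℕ) : Finset (Fin n → ℕ) :=
  (Fintype.piFinset fun _ : Fin n => m.support).filter fun w => cont w = m

theorem mem_W (m : ℕ →₀ ℕ) (w : Fin n → ℕ) : w ∈ W n m ↔ cont w = m := by
  classical
  rw [W, Finset.mem_filter, Fintype.mem_piFinset]
  refine ⟨fun h => h.2, fun h => ⟨fun i => ?_, h⟩⟩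
  rw [← h, Finsupp.mem_support_iff]
  exact (cont_apply_pos w i).ne'

/-- No two positions out of order without a descent. -/
theorem lt_of_no_descent (y : Equiv.Perm (Fin n)) (i : Fin n → ℕ) (hi : Monotone i)
    (hd : ∀ j k : Fin n, k.val = j.val + 1 → j.val + 1 ∈ Des y → i j < i k)
    (a b : Fin n) (hab : a < b) (h : i a = i b) : y a < y b := by
  obtain ⟨a, ha⟩ := a
  obtain ⟨b, hb⟩ := b
  rw [Fin.mk_lt_mk] at hab
  obtain ⟨d, rfl⟩ : ∃ d, b = a + 1 + d := ⟨b - (a + 1), by omega⟩
  induction d with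
  | zero =>
    by_contra hlt
    have hne : y ⟨a, ha⟩ ≠ y ⟨a + 1 + 0, hb⟩ := by
      intro h'
      have := congrArg Fin.val (y.injective h')
      simp at this
    have h1 : y ⟨a + 1 + 0, hb⟩ < y ⟨a, ha⟩ := lt_of_le_of_ne (not_lt.1 hlt) hne.symm
    have h2 := hd ⟨a, ha⟩ ⟨a + 1 + 0, hb⟩ (by simp) (by
      rw [Des, Finset.mem_filter, Finset.mem_Ioo]
      exact ⟨⟨by omega, by simpa using hb⟩, ⟨a, ha⟩, ⟨a + 1 + 0, hb⟩, rfl, rfl, h1⟩)
    omega
  | succ d ih =>
    have hb' : a + 1 + d < n := by omega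
    have e1 : i ⟨a, ha⟩ ≤ i ⟨a + 1 + d, hb'⟩ := hi (by rw [Fin.mk_le_mk]; omega)
    have e2 : i ⟨a + 1 + d, hb'⟩ ≤ i ⟨a + 1 + (d + 1), hb⟩ := hi (by rw [Fin.mk_le_mk]; omega)
    have h3 := ih hb' (by omega) (by omega)
    refine h3.trans ?_
    by_contra hlt
    have hne : y ⟨a + 1 + d, hb'⟩ ≠ y ⟨a + 1 + (d + 1), hb⟩ := by
      intro h'
      have := congrArg Fin.val (y.injective h')
      simp at this
    have h1 : y ⟨a + 1 + (d + 1), hb⟩ < y ⟨a + 1 + d, hb'⟩ := lt_of_le_of_ne (not_lt.1 hlt) hne.symm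
    have h2 := hd ⟨a + 1 + d, hb'⟩ ⟨a + 1 + (d + 1), hb⟩ (by simp; omega) (by
      rw [Des, Finset.mem_filter, Finset.mem_Ioo]
      exact ⟨⟨by omega, by simp; omega⟩, ⟨a + 1 + d, hb'⟩, ⟨a + 1 + (d + 1), hb⟩, rfl,
        by simp; omega, h1⟩)
    omega

theorem sort_eq_iff (w : Fin n → ℕ) (y : Equiv.Perm (Fin n)) :
    Tuple.sort w = y ↔ Monotone (w ∘ y) ∧
      ∀ j k : Fin n, k.val = j.val + 1 → j.val + 1 ∈ Des y → (w ∘ y) j < (w ∘ y) k := by
  rw [eq_comm, Tuple.eq_sort_iff]
  refine and_congr_right fun hm => ?_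
  constructor
  · intro h j k hjk hj
    rw [Des, Finset.mem_filter] at hj
    obtain ⟨-, a, b, ha, hb, hlt⟩ := hj
    obtain rfl : a = j := Fin.ext (by omega)
    obtain rfl : b = k := Fin.ext (by omega)
    have hab : a < b := by rw [Fin.lt_def]; omega
    refine lt_of_le_of_ne (hm hab.le) fun he => ?_
    exact absurd (h a b hab he) (not_lt.2 hlt.le)
  · intro h a b hab he
    exact lt_of_no_descent y (w ∘ y) hm h a b hab he

theorem coeff_fund (y : Equiv.Perm (Fin n)) (m : ℕ →₀ ℕ) :
    MvPowerSeries.coeff m (fund n (Des y)) =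
      (((W n m).filter fun w => Tuple.sort w = y).card : ℤ) := by
  classical
  have h1 : MvPowerSeries.coeff m (fund n (Des y)) = (Nat.card {i : Fin n → ℕ // Monotone i ∧
    (∀ j k : Fin n, k.val = j.val + 1 → j.val + 1 ∈ Des y → i j < i k) ∧ cont i = m} : ℤ) := rfl
  rw [h1]
  congr 1
  rw [← Fintype.card_coe, ← Nat.card_eq_fintype_card]
  refine Nat.card_congr
    { toFun := fun i => ⟨i.1 ∘ y.symm, ?_⟩
      invFun := fun w => ⟨w.1 ∘ y, ?_⟩
      left_inv := ?_
      right_inv := ?_ }
  · rw [Finset.mem_filter, mem_W, cont_comp_perm, sort_eq_iff]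
    have : (i.1 ∘ y.symm) ∘ y = i.1 := by
      funext k
      simp
    rw [this]
    exact ⟨i.2.2.2, i.2.1, i.2.2.1⟩
  · have := w.2
    rw [Finset.mem_filter, mem_W, sort_eq_iff] at this
    exact ⟨this.2.1, this.2.2, by rw [cont_comp_perm]; exact this.1⟩
  · intro i
    apply Subtype.ext
    funext k
    simp
  · intro w
    apply Subtype.ext
    funext k
    simp

theorem coeff_QF (A : Multiset (Equiv.Perm (Fin n))) (m : ℕ →₀ ℕ) :
    MvPowerSeries.coeff m (QF A) = ∑ w ∈ W n m, (A.count (Tuple.sort w) : ℤ) := by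
  classical
  induction A using Multiset.induction_on with
  | empty => simp [QF]
  | cons a A ih =>
    have h : QF (a ::ₘ A) = fund n (Des a) + QF A := by
      rw [QF, Multiset.map_cons, Multiset.sum_cons, QF]
    rw [h, map_add, ih, coeff_fund]
    simp only [Multiset.count_cons, Nat.cast_add]
    rw [Finset.sum_add_distrib, add_comm]
    congr 1
    rw [Finset.card_filter]
    push_cast
    rfl

/-- The counting function of a product. -/
theorem count_prodM (A B : Multiset (Equiv.Perm (Fin n))) (z : Equiv.Perm (Fin n)) :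
    (prodM A B).count z = (A.map fun a => B.count (a⁻¹ * z)).sum := by
  classical
  induction A using Multiset.induction_on with
  | empty => simp [prodM]
  | cons a A ih =>
    have h : prodM (a ::ₘ A) B = B.map (fun b => a * b) + prodM A B := by
      rw [prodM, Multiset.cons_product, Multiset.map_add, Multiset.map_map, prodM]
      rfl
    rw [h, Multiset.count_add, ih, Multiset.map_cons, Multiset.sum_cons]
    congr 1
    have : z = (fun b => a * b) (a⁻¹ * z) := by simp
    conv_lhs => rw [this]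
    exact Multiset.count_map_eq_count' _ _ (mul_right_injective a) _

theorem count_prodM' (A B : Multiset (Equiv.Perm (Fin n))) (z : Equiv.Perm (Fin n)) :
    (prodM A B).count z = (B.map fun b => A.count (z * b⁻¹)).sum := by
  classical
  induction B using Multiset.induction_on with
  | empty => simp [prodM]
  | cons b B ih =>
    have h : prodM A (b ::ₘ B) = A.map (fun a => a * b) + prodM A B := by
      rw [prodM, Multiset.product_cons, Multiset.map_add, Multiset.map_map, prodM]
      rfl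
    rw [h, Multiset.count_add, ih, Multiset.map_cons, Multiset.sum_cons]
    congr 1
    have : z = (fun a => a * b) (z * b⁻¹) := by simp
    conv_lhs => rw [this]
    exact Multiset.count_map_eq_count' _ _ (mul_left_injective b) _


/-! ### Monotone words -/

theorem toMultiset_cont (w : Fin n → ℕ) :
    Finsupp.toMultiset (cont w) = ((List.ofFn w : List ℕ) : Multiset ℕ) := by
  rw [cont, map_sum]
  simp only [Finsupp.toMultiset_single, one_smul]
  rw [← Fin.univ_val_map, Finset.sum]
  conv_rhs => rw [← Multiset.sum_map_singleton (Multiset.map w univ.val)]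
  rw [Multiset.map_map]
  rfl

theorem monotone_unique (f g : Fin n → ℕ) (hf : Monotone f) (hg : Monotone g)
    (h : cont f = cont g) : f = g := by
  have h1 : (List.ofFn f).Perm (List.ofFn g) := by
    rw [← Multiset.coe_eq_coe, ← toMultiset_cont, ← toMultiset_cont, h]
  have h2 : List.ofFn f = List.ofFn g :=
    h1.eq_of_pairwise' (r := (· ≤ ·)) (List.pairwise_ofFn.2 fun i j hij => hf hij.le)
      (List.pairwise_ofFn.2 fun i j hij => hg hij.le)
  exact List.ofFn_injective h2

/-- The block function of a set of descents. -/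
def blk (n : ℕ) (J : Finset ℕ) : Fin n → ℕ := fun i => (J.filter fun j => j ≤ i.val).card

theorem blk_mono (J : Finset ℕ) : Monotone (blk n J) := by
  intro i j hij
  refine Finset.card_le_card fun x hx => ?_
  rw [Finset.mem_filter] at hx ⊢
  exact ⟨hx.1, hx.2.trans hij⟩

theorem blk_lt_iff (J : Finset ℕ) (j k : Fin n) (hjk : k.val = j.val + 1) :
    blk n J j < blk n J k ↔ k.val ∈ J := by
  constructor
  · intro h
    by_contra hk
    apply h.ne
    unfold blk
    congr 1
    ext x
    rw [Finset.mem_filter, Finset.mem_filter]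
    refine and_congr_right fun hx => ?_
    constructor
    · intro h1
      omega
    · intro h1
      have : x ≠ k.val := fun h2 => hk (h2 ▸ hx)
      omega
  · intro hk
    refine Finset.card_lt_card ?_
    rw [Finset.ssubset_iff]
    refine ⟨k.val, ?_, ?_⟩
    · rw [Finset.mem_filter]
      omega
    · intro x hx
      rw [Finset.mem_insert, Finset.mem_filter] at hx
      rw [Finset.mem_filter]
      rcases hx with rfl | hx
      · exact ⟨hk, le_rfl⟩
      · exact ⟨hx.1, by omega⟩

theorem sum_des_subset (J : Finset ℕ) (G : Equiv.Perm (Fin n) → ℤ) :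
    (∑ u : Equiv.Perm (Fin n) with Des u ⊆ J, G u) =
      ∑ f ∈ W n (cont (blk n J)), G (Tuple.sort f) := by
  classical
  refine Finset.sum_bij' (fun u _ => blk n J ∘ ⇑u⁻¹) (fun f _ => Tuple.sort f) ?_ ?_ ?_ ?_ ?_
  · intro u _
    rw [mem_W, cont_comp_perm]
  · intro f hf
    rw [mem_W] at hf
    rw [Finset.mem_filter]
    refine ⟨Finset.mem_univ _, fun d hd => ?_⟩
    have h1 : f ∘ Tuple.sort f = blk n J :=
      monotone_unique _ _ (Tuple.monotone_sort f) (blk_mono J) (by rw [cont_comp_perm, hf])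
    have h2 := ((sort_eq_iff f (Tuple.sort f)).1 rfl).2
    have hd' := hd
    rw [Des, Finset.mem_filter] at hd'
    obtain ⟨-, a, b, ha, hb, -⟩ := hd'
    have h3 := h2 a b (by omega) (by rw [ha]; exact hd)
    rw [h1, blk_lt_iff J a b (by omega)] at h3
    rwa [hb] at h3
  · intro u hu
    rw [Finset.mem_filter] at hu
    rw [sort_eq_iff]
    have h1 : (blk n J ∘ ⇑u⁻¹) ∘ u = blk n J := by
      funext k
      simp
    rw [h1]
    refine ⟨blk_mono J, fun j k hjk hj => ?_⟩
    rw [blk_lt_iff J j k hjk, hjk]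
    exact hu.2 hj
  · intro f hf
    rw [mem_W] at hf
    have h1 : f ∘ Tuple.sort f = blk n J :=
      monotone_unique _ _ (Tuple.monotone_sort f) (blk_mono J) (by rw [cont_comp_perm, hf])
    rw [← h1]
    funext k
    simp
  · intro u hu
    congr 1
    symm
    rw [Finset.mem_filter] at hu
    rw [sort_eq_iff]
    have h1 : (blk n J ∘ ⇑u⁻¹) ∘ u = blk n J := by
      funext k
      simp
    rw [h1]
    refine ⟨blk_mono J, fun j k hjk hj => ?_⟩
    rw [blk_lt_iff J j k hjk, hjk]
    exact hu.2 hj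

/-! ### Pairs of words -/

theorem sort_mul_sort (f h : Fin n → ℕ) (N : ℕ) (hN : ∀ i, f i < N) :
    Tuple.sort f * Tuple.sort h =
      Tuple.sort (fun p => (h ∘ ⇑(Tuple.sort f)⁻¹) p * N + f p) := by
  rw [Tuple.eq_sort_iff]
  have key : ∀ i : Fin n, ((fun p => (h ∘ ⇑(Tuple.sort f)⁻¹) p * N + f p) ∘
      ⇑(Tuple.sort f * Tuple.sort h)) i =
      (h ∘ Tuple.sort h) i * N + (f ∘ Tuple.sort f) (Tuple.sort h i) := by
    intro i
    simp
  have hlt : ∀ i, (f ∘ Tuple.sort f) i < N := fun i => hN _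
  have hle : ∀ i j, i < j → (h ∘ Tuple.sort h) i = (h ∘ Tuple.sort h) j →
      Tuple.sort h i < Tuple.sort h j := by
    intro i j hij he
    exact ((Tuple.eq_sort_iff (f := h) (σ := Tuple.sort h)).1 rfl).2 i j hij he
  have hf : ∀ i j, i < j → (f ∘ Tuple.sort f) i = (f ∘ Tuple.sort f) j →
      Tuple.sort f i < Tuple.sort f j := by
    intro i j hij he
    exact ((Tuple.eq_sort_iff (f := f) (σ := Tuple.sort f)).1 rfl).2 i j hij he
  constructor
  · intro i j hij
    rw [key, key]
    rcases hij.eq_or_lt with rfl | hij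
    · exact le_rfl
    have h1 := Tuple.monotone_sort h hij.le
    rcases h1.eq_or_lt with h2 | h2
    · rw [h2]
      have := Tuple.monotone_sort f (hle i j hij h2).le
      omega
    · have h3 : (h ∘ Tuple.sort h) i * N + N ≤ (h ∘ Tuple.sort h) j * N := by
        have := Nat.mul_le_mul_right N (Nat.succ_le_of_lt h2)
        rwa [Nat.succ_mul] at this
      have h4 := hlt (Tuple.sort h i)
      omega
  · intro i j hij he
    have he' := (key i).symm.trans (he.trans (key j))
    have h1 := Tuple.monotone_sort h hij.le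
    rcases h1.eq_or_lt with h2 | h2
    · rw [h2] at he'
      have h5 : (f ∘ Tuple.sort f) (Tuple.sort h i) = (f ∘ Tuple.sort f) (Tuple.sort h j) := by
        omega
      exact hf _ _ (hle i j hij h2) h5
    · have h3 : (h ∘ Tuple.sort h) i * N + N ≤ (h ∘ Tuple.sort h) j * N := by
        have := Nat.mul_le_mul_right N (Nat.succ_le_of_lt h2)
        rwa [Nat.succ_mul] at this
      have h4 := hlt (Tuple.sort h i)
      omega

theorem sum_W_comp (m : ℕ →₀ ℕ) (σ : Equiv.Perm (Fin n)) (G : (Fin n → ℕ) → ℤ) :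
    (∑ w ∈ W n m, G (w ∘ σ)) = ∑ w ∈ W n m, G w := by
  classical
  refine Finset.sum_bij' (fun w _ => w ∘ σ) (fun w _ => w ∘ ⇑σ⁻¹) ?_ ?_ ?_ ?_ ?_
  · intro w hw
    rw [mem_W] at hw ⊢
    rw [cont_comp_perm, hw]
  · intro w hw
    rw [mem_W] at hw ⊢
    rw [cont_comp_perm, hw]
  · intro w _
    funext k
    simp
  · intro w _
    funext k
    simp
  · intro w _
    rfl

/-- The swap of the two digits in base `N`. -/
def sw (N : ℕ) (hN : 0 < N) : Equiv.Perm ℕ where
  toFun k := if k < N * N then (k % N) * N + k / N else k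
  invFun k := if k < N * N then (k % N) * N + k / N else k
  left_inv := by
    intro k
    by_cases hk : k < N * N
    · have h1 : k / N < N := Nat.div_lt_of_lt_mul hk
      have h2 : k % N < N := Nat.mod_lt _ hN
      have h3 : (k % N) * N + k / N < N * N := by nlinarith
      simp only [if_pos hk, if_pos h3]
      have h4 : ((k % N) * N + k / N) % N = k / N := by
        rw [Nat.mul_add_mod', Nat.mod_eq_of_lt h1]
      have h5 : ((k % N) * N + k / N) / N = k % N := by
        rw [Nat.div_eq_iff hN]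
        constructor <;> omega
      rw [h4, h5]
      exact Nat.div_add_mod' k N
    · simp [hk]
  right_inv := by
    intro k
    by_cases hk : k < N * N
    · have h1 : k / N < N := Nat.div_lt_of_lt_mul hk
      have h2 : k % N < N := Nat.mod_lt _ hN
      have h3 : (k % N) * N + k / N < N * N := by nlinarith
      simp only [if_pos hk, if_pos h3]
      have h4 : ((k % N) * N + k / N) % N = k / N := by
        rw [Nat.mul_add_mod', Nat.mod_eq_of_lt h1]
      have h5 : ((k % N) * N + k / N) / N = k % N := by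
        rw [Nat.div_eq_iff hN]
        constructor <;> omega
      rw [h4, h5]
      exact Nat.div_add_mod' k N
    · simp [hk]


theorem sw_apply (N : ℕ) (hN : 0 < N) (a b : ℕ) (ha : a < N) (hb : b < N) :
    sw N hN (a * N + b) = b * N + a := by
  have h3 : a * N + b < N * N := by nlinarith
  have h4 : (a * N + b) % N = b := by rw [Nat.mul_add_mod', Nat.mod_eq_of_lt hb]
  have h5 : (a * N + b) / N = a := by
    rw [Nat.div_eq_iff hN]
    constructor <;> omega
  show (if a * N + b < N * N then _ else _) = _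
  rw [if_pos h3, h4, h5]

/-- The content classes see a permutation of the letters as symmetric. -/
theorem sum_W_perm (B : Multiset (Equiv.Perm (Fin n))) (hB : IsSymm (QF B)) (σ : Equiv.Perm ℕ)
    (c : ℕ →₀ ℕ) :
    (∑ v ∈ W n c, (B.count (Tuple.sort (σ ∘ v)) : ℤ)) =
      ∑ v ∈ W n c, (B.count (Tuple.sort v) : ℤ) := by
  classical
  rw [← coeff_QF, ← hB σ c, coeff_QF]
  refine Finset.sum_bij' (fun v _ => σ ∘ v) (fun v _ => σ.symm ∘ v) ?_ ?_ ?_ ?_ ?_
  · intro v hv
    rw [mem_W] at hv ⊢
    rw [cont_map, hv]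
  · intro v hv
    rw [mem_W] at hv ⊢
    rw [cont_map, hv, ← Finsupp.mapDomain_comp]
    simp
  · intro v _
    funext k
    simp
  · intro v _
    funext k
    simp
  · intro v _
    rfl

/-- Sums over pairs of words, fiberwise over the content of the pair word. -/
theorem sum_pairs (m α : ℕ →₀ ℕ) (N : ℕ) (hN : 0 < N) (hα : ∀ f ∈ W n α, ∀ i, f i < N)
    (G H : (Fin n → ℕ) → ℤ) (hGH : ∀ c, ∑ v ∈ W n c, G v = ∑ v ∈ W n c, H v) :
    (∑ w ∈ W n m, ∑ f ∈ W n α, G (fun i => w i * N + f i)) =
      ∑ w ∈ W n m, ∑ f ∈ W n α, H (fun i => w i * N + f i) := by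
  classical
  rw [← Finset.sum_product', ← Finset.sum_product']
  let e : (Fin n → ℕ) × (Fin n → ℕ) → (Fin n → ℕ) := fun p i => p.1 i * N + p.2 i
  have key : ∀ K : (Fin n → ℕ) → ℤ, (∑ p ∈ W n m ×ˢ W n α, K (e p)) =
      ∑ c ∈ (W n m ×ˢ W n α).image (fun p => cont (e p)), ∑ v ∈ W n c, K v := by
    intro K
    rw [← Finset.sum_fiberwise_of_maps_to (g := fun p => cont (e p))
      (t := (W n m ×ˢ W n α).image (fun p => cont (e p)))
      (fun p hp => Finset.mem_image_of_mem _ hp)]
    refine Finset.sum_congr rfl fun c hc => ?_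
    rw [Finset.mem_image] at hc
    obtain ⟨p₀, hp₀, rfl⟩ := hc
    rw [Finset.mem_product, mem_W, mem_W] at hp₀
    have hf₀ : ∀ i, p₀.2 i < N := hα _ ((mem_W _ _).2 hp₀.2)
    have hdiv : ∀ p : (Fin n → ℕ) × (Fin n → ℕ), (∀ i, p.2 i < N) →
        (fun k => k / N) ∘ (e p) = p.1 ∧ (fun k => k % N) ∘ (e p) = p.2 := by
      intro p hp
      constructor
      · funext i
        show (p.1 i * N + p.2 i) / N = p.1 i
        rw [Nat.div_eq_iff hN]
        have := hp i
        constructor <;> omega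
      · funext i
        show (p.1 i * N + p.2 i) % N = p.2 i
        rw [Nat.mul_add_mod', Nat.mod_eq_of_lt (hp i)]
    refine Finset.sum_bij' (fun p _ => e p) (fun v _ => ((fun k => k / N) ∘ v, (fun k => k % N) ∘ v))
      ?_ ?_ ?_ ?_ ?_
    · intro p hp
      rw [Finset.mem_filter] at hp
      rw [mem_W]
      exact hp.2
    · intro v hv
      rw [mem_W] at hv
      rw [Finset.mem_filter, Finset.mem_product, mem_W, mem_W]
      refine ⟨⟨?_, ?_⟩, ?_⟩
      · show cont ((fun k => k / N) ∘ v) = m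
        rw [cont_map, hv, ← cont_map, (hdiv p₀ hf₀).1]
        exact hp₀.1
      · show cont ((fun k => k % N) ∘ v) = α
        rw [cont_map, hv, ← cont_map, (hdiv p₀ hf₀).2]
        exact hp₀.2
      · rw [← hv]
        congr 1
        funext i
        exact Nat.div_add_mod' (v i) N
    · intro p hp
      rw [Finset.mem_filter, Finset.mem_product, mem_W, mem_W] at hp
      have := hdiv p (hα _ ((mem_W _ _).2 hp.1.2))
      exact Prod.ext this.1 this.2
    · intro v _
      funext i
      exact Nat.div_add_mod' (v i) N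
    · intro p _
      rfl
  show (∑ p ∈ W n m ×ˢ W n α, G (e p)) = ∑ p ∈ W n m ×ˢ W n α, H (e p)
  rw [key G, key H]
  exact Finset.sum_congr rfl fun c _ => hGH c

theorem exists_bound (m : ℕ →₀ ℕ) : ∃ N : ℕ, ∀ f ∈ W n m, ∀ i, f i < N := by
  classical
  refine ⟨m.support.sup id + 1, fun f hf i => ?_⟩
  rw [mem_W] at hf
  have h : f i ∈ m.support := by
    rw [← hf, Finsupp.mem_support_iff]
    exact (cont_apply_pos f i).ne'
  exact Nat.lt_succ_of_le (Finset.le_sup (f := id) h)

theorem commute_sum (B : Multiset (Equiv.Perm (Fin n))) (hB : IsSymm (QF B)) (m α : ℕ →₀ ℕ) :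
    (∑ w ∈ W n m, ∑ f ∈ W n α, (B.count (Tuple.sort f * Tuple.sort w) : ℤ)) =
      ∑ w ∈ W n m, ∑ f ∈ W n α, (B.count (Tuple.sort w * Tuple.sort f) : ℤ) := by
  classical
  obtain ⟨N₁, hN₁⟩ := exists_bound (n := n) m
  obtain ⟨N₂, hN₂⟩ := exists_bound (n := n) α
  obtain ⟨N, hN, h1, h2⟩ : ∃ N : ℕ, 0 < N ∧ N₁ ≤ N ∧ N₂ ≤ N :=
    ⟨N₁ + N₂ + 1, by omega, by omega, by omega⟩
  have hm : ∀ f ∈ W n m, ∀ i, f i < N := fun f hf i => (hN₁ f hf i).trans_le h1
  have hα : ∀ f ∈ W n α, ∀ i, f i < N := fun f hf i => (hN₂ f hf i).trans_le h2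
  have L : (∑ w ∈ W n m, ∑ f ∈ W n α, (B.count (Tuple.sort f * Tuple.sort w) : ℤ)) =
      ∑ w ∈ W n m, ∑ f ∈ W n α, (B.count (Tuple.sort fun i => w i * N + f i) : ℤ) := by
    rw [Finset.sum_comm, Finset.sum_comm (s := W n m)]
    refine Finset.sum_congr rfl fun f hf => ?_
    rw [← sum_W_comp m (Tuple.sort f)⁻¹
      (fun w => (B.count (Tuple.sort fun i => w i * N + f i) : ℤ))]
    refine Finset.sum_congr rfl fun w _ => ?_
    rw [sort_mul_sort f w N (hα f hf)]
  have R : (∑ w ∈ W n m, ∑ f ∈ W n α, (B.count (Tuple.sort w * Tuple.sort f) : ℤ)) =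
      ∑ w ∈ W n m, ∑ f ∈ W n α, (B.count (Tuple.sort fun i => f i * N + w i) : ℤ) := by
    refine Finset.sum_congr rfl fun w hw => ?_
    rw [← sum_W_comp α (Tuple.sort w)⁻¹
      (fun f => (B.count (Tuple.sort fun i => f i * N + w i) : ℤ))]
    refine Finset.sum_congr rfl fun f _ => ?_
    rw [sort_mul_sort w f N (hm w hw)]
  rw [L, R]
  have h3 : ∀ w ∈ W n m, ∀ f ∈ W n α, (fun i => f i * N + w i) =
      sw N hN ∘ (fun i => w i * N + f i) := by
    intro w hw f hf
    funext i
    exact (sw_apply N hN _ _ (hm w hw i) (hα f hf i)).symm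
  have R2 : (∑ w ∈ W n m, ∑ f ∈ W n α, (B.count (Tuple.sort fun i => f i * N + w i) : ℤ)) =
      ∑ w ∈ W n m, ∑ f ∈ W n α,
        (B.count (Tuple.sort (sw N hN ∘ fun i => w i * N + f i)) : ℤ) := by
    refine Finset.sum_congr rfl fun w hw => Finset.sum_congr rfl fun f hf => ?_
    rw [h3 w hw f hf]
  rw [R2]
  exact (sum_pairs m α N hN hα (fun v => (B.count (Tuple.sort (sw N hN ∘ v)) : ℤ))
    (fun v => (B.count (Tuple.sort v) : ℤ)) (fun c => sum_W_perm B hB (sw N hN) c)).symm

/-! ### The theorem -/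

theorem coeff_left (B : Multiset (Equiv.Perm (Fin n))) (J : Finset ℕ) (m : ℕ →₀ ℕ) :
    MvPowerSeries.coeff m (QF (prodM (invDes n J) B)) =
      ∑ u : Equiv.Perm (Fin n) with Des u = J, ∑ w ∈ W n m, (B.count (u * Tuple.sort w) : ℤ) := by
  classical
  rw [coeff_QF, Finset.sum_comm]
  refine Finset.sum_congr rfl fun w _ => ?_
  rw [count_prodM, invDes]
  push_cast
  rw [Multiset.map_map]
  change (∑ x : Equiv.Perm (Fin n) with Des x⁻¹ = J, (B.count (x⁻¹ * Tuple.sort w) : ℤ)) = _
  refine Finset.sum_bij' (fun x _ => x⁻¹) (fun x _ => x⁻¹) ?_ ?_ ?_ ?_ ?_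
  · intro x hx
    simpa using hx
  · intro x hx
    simpa using hx
  · intro x _
    simp
  · intro x _
    simp
  · intro x _
    rfl

theorem coeff_right (B : Multiset (Equiv.Perm (Fin n))) (J : Finset ℕ) (m : ℕ →₀ ℕ) :
    MvPowerSeries.coeff m (QF (prodM B (invDes n J))) =
      ∑ u : Equiv.Perm (Fin n) with Des u = J, ∑ w ∈ W n m, (B.count (Tuple.sort w * u) : ℤ) := by
  classical
  rw [coeff_QF, Finset.sum_comm]
  refine Finset.sum_congr rfl fun w _ => ?_
  rw [count_prodM', invDes]
  push_cast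
  rw [Multiset.map_map]
  change (∑ x : Equiv.Perm (Fin n) with Des x⁻¹ = J, (B.count (Tuple.sort w * x⁻¹) : ℤ)) = _
  refine Finset.sum_bij' (fun x _ => x⁻¹) (fun x _ => x⁻¹) ?_ ?_ ?_ ?_ ?_
  · intro x hx
    simpa using hx
  · intro x hx
    simpa using hx
  · intro x _
    simp
  · intro x _
    simp
  · intro x _
    rfl

/-- Möbius inversion over the subsets, in the form of uniqueness. -/
theorem eq_of_sum_subset (G H : Finset ℕ → ℤ)
    (h : ∀ J : Finset ℕ, ∑ K ∈ J.powerset, G K = ∑ K ∈ J.powerset, H K) (J : Finset ℕ) :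
    G J = H J := by
  classical
  induction J using Finset.strongInduction with
  | H J ih =>
    have h1 := h J
    rw [← Finset.sum_erase_add _ _ (Finset.mem_powerset_self J),
      ← Finset.sum_erase_add (a := J) J.powerset H (Finset.mem_powerset_self J)] at h1
    have h2 : ∑ K ∈ J.powerset.erase J, G K = ∑ K ∈ J.powerset.erase J, H K := by
      refine Finset.sum_congr rfl fun K hK => ih K ?_
      rw [Finset.mem_erase, Finset.mem_powerset] at hK
      exact Finset.ssubset_iff_subset_ne.2 ⟨hK.2, hK.1⟩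
    linarith

theorem sum_powerset_des (J : Finset ℕ) (G : Equiv.Perm (Fin n) → ℤ) :
    (∑ K ∈ J.powerset, ∑ u : Equiv.Perm (Fin n) with Des u = K, G u) =
      ∑ u : Equiv.Perm (Fin n) with Des u ⊆ J, G u := by
  classical
  rw [← Finset.sum_fiberwise_of_maps_to (s := univ.filter fun u : Equiv.Perm (Fin n) => Des u ⊆ J)
    (t := J.powerset) (g := fun u => Des u)
    (fun u hu => Finset.mem_powerset.2 (Finset.mem_filter.1 hu).2)]
  refine Finset.sum_congr rfl fun K hK => ?_
  refine Finset.sum_congr ?_ fun _ _ => rfl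
  ext u
  simp only [Finset.mem_filter, Finset.mem_univ, true_and]
  constructor
  · rintro rfl
    exact ⟨Finset.mem_powerset.1 hK, rfl⟩
  · exact fun h => h.2

/-- For a multiset `B` with symmetric quasisymmetric function, the two products with an inverse
descent class have the same quasisymmetric function. -/
theorem QF_prod_comm (B : Multiset (Equiv.Perm (Fin n))) (hB : IsSymm (QF B)) (J : Finset ℕ) :
    QF (prodM B (invDes n J)) = QF (prodM (invDes n J) B) := by
  classical
  ext m
  rw [coeff_left, coeff_right]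
  refine eq_of_sum_subset
    (fun J => ∑ u : Equiv.Perm (Fin n) with Des u = J,
      ∑ w ∈ W n m, (B.count (Tuple.sort w * u) : ℤ))
    (fun J => ∑ u : Equiv.Perm (Fin n) with Des u = J,
      ∑ w ∈ W n m, (B.count (u * Tuple.sort w) : ℤ)) (fun J => ?_) J
  rw [sum_powerset_des, sum_powerset_des, sum_des_subset, sum_des_subset, Finset.sum_comm,
    Finset.sum_comm (s := W n (cont (blk n J)))]
  exact (commute_sum B hB m _).symm

end Pool.Agent.R859.QS
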