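import Mathlib
import Pool.Agent.R859.QS.Defs

/-!
# Rotations and embedded inverse descent classes
-/

set_option autoImplicit false

namespace Pool.Agent.R859.QS

/-- The elements of the cyclic group `C_n ⊆ S_n` generated by the `n`-cycle `i ↦ i + 1`, as a
multiset (each element once). -/
def rot (n : ℕ) : Multiset (Equiv.Perm (Fin n)) :=
  (Multiset.range n).map fun j => finRotate n ^ j

/-- The inverse descent class `{π ∈ S_k : Des(π⁻¹) = J}`, regarded as a set of permutations in
`S_{k+1}`: the permutations that extend some such `π` (and hence fix the last element). -/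
noncomputable def invDesExt (k : ℕ) (J : Finset ℕ) : Multiset (Equiv.Perm (Fin (k + 1))) :=
  open Classical in
  ((Finset.univ : Finset (Equiv.Perm (Fin (k + 1)))).filter fun σ =>
    ∃ π : Equiv.Perm (Fin k), Des π⁻¹ = J ∧ ∀ i : Fin k, σ i.castSucc = (π i).castSucc).val

end Pool.Agent.R859.QS
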