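import Mathlib
import Pool.Agent.R859.QS.Comm
import Pool.Agent.R859.QS.RotDefs

set_option autoImplicit false

namespace Pool.Agent.R859.QS

open Finset

variable {n : ℕ}

/-- The descents of `z` are among the strict ascents of `g`. -/
def comp (g : Fin n → ℕ) (z : Equiv.Perm (Fin n)) : Prop :=
  ∀ i j : Fin n, j.val = i.val + 1 → g i = g j → z i < z j

theorem sort_iff_comp (g : Fin n → ℕ) (hg : Monotone g) (m : ℕ →₀ ℕ) (hm : cont g = m)
    (w : Fin n → ℕ) (hw : w ∈ W n m) (z : Equiv.Perm (Fin n)) :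
    Tuple.sort w = z ↔ (comp g z ∧ w = g ∘ ⇑z⁻¹) := by
  rw [mem_W] at hw
  constructor
  · rintro rfl
    have h1 : w ∘ Tuple.sort w = g :=
      monotone_unique _ _ (Tuple.monotone_sort w) hg (by rw [cont_comp_perm, hw, hm])
    refine ⟨?_, ?_⟩
    · intro i j hij hgij
      rw [← h1] at hgij
      have := ((Tuple.eq_sort_iff (f := w) (σ := Tuple.sort w)).1 rfl).2 i j
        (by rw [Fin.lt_def]; omega) hgij
      exact this
    · rw [← h1]
      funext i
      simp
  · rintro ⟨h1, rfl⟩
    rw [sort_eq_iff]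
    have h2 : (g ∘ ⇑z⁻¹) ∘ z = g := by
      funext i
      simp
    rw [h2]
    refine ⟨hg, fun j k hjk hj => ?_⟩
    refine lt_of_le_of_ne (hg (by rw [Fin.le_def]; omega)) fun he => ?_
    have h3 := h1 j k hjk he
    rw [Des, Finset.mem_filter] at hj
    obtain ⟨-, a, b, ha, hb, hlt⟩ := hj
    obtain rfl : a = j := Fin.ext (by omega)
    obtain rfl : b = k := Fin.ext (by omega)
    exact absurd h3 (not_lt.2 hlt.le)

/-- Summing over words is summing over the compatible permutations. -/
theorem sum_W_eq (g : Fin n → ℕ) (hg : Monotone g) (m : ℕ →₀ ℕ) (hm : cont g = m)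
    (G : Equiv.Perm (Fin n) → ℤ) [DecidablePred (comp g)] :
    (∑ w ∈ W n m, G (Tuple.sort w)) = ∑ z : Equiv.Perm (Fin n) with comp g z, G z := by
  classical
  refine Finset.sum_bij' (fun w _ => Tuple.sort w) (fun z _ => g ∘ ⇑z⁻¹) ?_ ?_ ?_ ?_ ?_
  · intro w hw
    rw [Finset.mem_filter]
    exact ⟨Finset.mem_univ _, ((sort_iff_comp g hg m hm w hw _).1 rfl).1⟩
  · intro z _
    rw [mem_W, cont_comp_perm, hm]
  · intro w hw
    exact ((sort_iff_comp g hg m hm w hw _).1 rfl).2.symm
  · intro z hz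
    rw [Finset.mem_filter] at hz
    have h1 : g ∘ ⇑z⁻¹ ∈ W n m := by rw [mem_W, cont_comp_perm, hm]
    exact (sort_iff_comp g hg m hm _ h1 z).2 ⟨hz.2, rfl⟩
  · intro w _
    rfl

theorem coeff_QF_comp (g : Fin n → ℕ) (hg : Monotone g) (m : ℕ →₀ ℕ) (hm : cont g = m)
    [DecidablePred (comp g)] (A : Multiset (Equiv.Perm (Fin n))) :
    MvPowerSeries.coeff m (QF A) = (A.map fun z => if comp g z then (1 : ℤ) else 0).sum := by
  classical
  rw [coeff_QF, sum_W_eq g hg m hm (fun z => (A.count z : ℤ))]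
  induction A using Multiset.induction_on with
  | empty => simp
  | cons a A ih =>
    rw [Multiset.map_cons, Multiset.sum_cons, ← ih]
    simp only [Multiset.count_cons, Nat.cast_add]
    rw [Finset.sum_add_distrib, add_comm]
    congr 1
    by_cases ha : comp g a
    · rw [if_pos ha, Finset.sum_eq_single a]
      · simp
      · intro b _ hb
        simp [hb]
      · intro h
        exact absurd (Finset.mem_filter.2 ⟨Finset.mem_univ _, ha⟩) h
    · rw [if_neg ha]
      refine Finset.sum_eq_zero fun b hb => ?_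
      rw [Finset.mem_filter] at hb
      have : b ≠ a := fun h => ha (h ▸ hb.2)
      simp [this]

theorem mem_invDesExt (k : ℕ) (J : Finset ℕ) (σ : Equiv.Perm (Fin (k + 1))) :
    (∃ π : Equiv.Perm (Fin k), Des π⁻¹ = J ∧ ∀ i : Fin k, σ i.castSucc = (π i).castSucc) ↔
      σ (Fin.last k) = Fin.last k ∧ Des σ⁻¹ = J := by
  have key : ∀ π : Equiv.Perm (Fin k), (∀ i : Fin k, σ i.castSucc = (π i).castSucc) →
      σ (Fin.last k) = Fin.last k ∧ Des σ⁻¹ = Des π⁻¹ := by
    intro π hπ
    have h1 : σ (Fin.last k) = Fin.last k := by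
      by_contra h
      obtain ⟨j, hj⟩ := Fin.exists_castSucc_eq.2 h
      have h2 := hπ (π⁻¹ j)
      rw [show π (π⁻¹ j) = j by simp, hj] at h2
      exact (Fin.castSucc_lt_last _).ne (σ.injective h2)
    have h2 : ∀ i : Fin k, σ⁻¹ i.castSucc = (π⁻¹ i).castSucc := by
      intro i
      rw [Equiv.Perm.inv_eq_iff_eq, hπ]
      simp
    have h3 : σ⁻¹ (Fin.last k) = Fin.last k := by
      rw [Equiv.Perm.inv_eq_iff_eq, h1]
    refine ⟨h1, ?_⟩
    ext d
    rw [Des, Des, Finset.mem_filter, Finset.mem_filter, Finset.mem_Ioo, Finset.mem_Ioo]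
    constructor
    · rintro ⟨⟨hd0, hd⟩, a, b, ha, hb, hlt⟩
      have hbk : b ≠ Fin.last k := by
        rintro rfl
        rw [h3] at hlt
        exact absurd hlt (not_lt.2 (Fin.le_last _))
      have hak : a ≠ Fin.last k := by
        rintro rfl
        have := b.isLt
        simp at ha
        omega
      obtain ⟨a', rfl⟩ := Fin.exists_castSucc_eq.2 hak
      obtain ⟨b', rfl⟩ := Fin.exists_castSucc_eq.2 hbk
      rw [h2, h2, Fin.castSucc_lt_castSucc_iff] at hlt
      refine ⟨⟨hd0, ?_⟩, a', b', ha, hb, hlt⟩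
      have := b'.isLt
      simp at hb
      omega
    · rintro ⟨⟨hd0, hd⟩, a, b, ha, hb, hlt⟩
      refine ⟨⟨hd0, by omega⟩, a.castSucc, b.castSucc, ha, hb, ?_⟩
      rw [h2, h2, Fin.castSucc_lt_castSucc_iff]
      exact hlt
  constructor
  · rintro ⟨π, hJ, hπ⟩
    have := key π hπ
    exact ⟨this.1, this.2.trans hJ⟩
  · rintro ⟨h1, hJ⟩
    have h3 : σ⁻¹ (Fin.last k) = Fin.last k := by
      rw [Equiv.Perm.inv_eq_iff_eq, h1]
    have hne : ∀ i : Fin k, σ i.castSucc ≠ Fin.last k := by
      intro i h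
      rw [← h1] at h
      exact (Fin.castSucc_lt_last _).ne (σ.injective h)
    have hne' : ∀ i : Fin k, σ⁻¹ i.castSucc ≠ Fin.last k := by
      intro i h
      rw [← h3] at h
      exact (Fin.castSucc_lt_last _).ne (σ⁻¹.injective h)
    let π : Equiv.Perm (Fin k) :=
      { toFun := fun i => (σ i.castSucc).castPred (hne i)
        invFun := fun i => (σ⁻¹ i.castSucc).castPred (hne' i)
        left_inv := fun i => by simp
        right_inv := fun i => by simp }
    have hπ : ∀ i : Fin k, σ i.castSucc = (π i).castSucc := fun i => by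
      show σ i.castSucc = ((σ i.castSucc).castPred (hne i)).castSucc
      simp
    exact ⟨π, (key π hπ).2.symm.trans hJ, hπ⟩


/-! ### Rotations -/

theorem finRotate_pow_val (k j : ℕ) (i : Fin (k + 1)) :
    ((finRotate (k + 1) ^ j) i).val = (i.val + j) % (k + 1) := by
  induction j with
  | zero =>
    have := Nat.mod_eq_of_lt i.isLt
    simpa using this.symm
  | succ j ih =>
    rw [pow_succ', Equiv.Perm.mul_apply, finRotate_apply, Fin.val_add, ih]
    rw [Fin.val_one']
    rw [← Nat.add_mod, Nat.add_assoc]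

/-- Every position is moved to the last one by exactly one rotation. -/
theorem card_rot_last (k : ℕ) (p : Fin (k + 1)) :
    ((Finset.range (k + 1)).filter fun j => (finRotate (k + 1) ^ j) p = Fin.last k).card = 1 := by
  rw [Finset.card_eq_one]
  refine ⟨k - p.val, ?_⟩
  ext j
  rw [Finset.mem_filter, Finset.mem_range, Finset.mem_singleton, Fin.ext_iff, finRotate_pow_val,
    Fin.val_last]
  have hp := p.isLt
  constructor
  · rintro ⟨hj, h⟩
    by_cases h1 : p.val + j < k + 1
    · rw [Nat.mod_eq_of_lt h1] at h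
      omega
    · rw [Nat.mod_eq_sub_mod (by omega), Nat.mod_eq_of_lt (by omega)] at h
      omega
  · rintro rfl
    refine ⟨by omega, ?_⟩
    rw [Nat.mod_eq_of_lt (by omega)]
    omega

/-- Comparison of two positions in the standardization of a word. -/
theorem inv_sort_lt (w : Fin n → ℕ) (a b : Fin n) :
    (Tuple.sort w)⁻¹ a < (Tuple.sort w)⁻¹ b ↔ w a < w b ∨ (w a = w b ∧ a < b) := by
  have h0 := (Tuple.eq_sort_iff (f := w) (σ := Tuple.sort w)).1 rfl
  have key : ∀ a b : Fin n, (Tuple.sort w)⁻¹ a < (Tuple.sort w)⁻¹ b →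
      w a < w b ∨ (w a = w b ∧ a < b) := by
    intro a b h
    have h1 := h0.1 h.le
    have h2 := h0.2 _ _ h
    have e : ∀ a, (Tuple.sort w) ((Tuple.sort w)⁻¹ a) = a := fun a => by simp
    simp only [Function.comp_apply, e] at h1 h2
    rcases h1.lt_or_eq with h3 | h3
    · exact Or.inl h3
    · exact Or.inr ⟨h3, h2 h3⟩
  constructor
  · exact key a b
  · intro h
    by_contra hlt
    rcases (not_lt.1 hlt).lt_or_eq with h1 | h1
    · rcases key b a h1 with h2 | h2 <;> rcases h with h3 | h3
      · omega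
      · omega
      · omega
      · exact absurd h2.2 (not_lt.2 h3.2.le)
    · have := (Tuple.sort w)⁻¹.injective h1
      subst this
      rcases h with h3 | h3
      · exact absurd h3 (lt_irrefl _)
      · exact absurd h3.2 (lt_irrefl _)


theorem cont_apply (w : Fin n → ℕ) (x : ℕ) :
    cont w x = (Finset.univ.filter fun i => w i = x).card := by
  classical
  unfold cont
  rw [Finsupp.finsetSum_apply, Finset.card_filter]
  refine Finset.sum_congr rfl fun i _ => ?_
  rw [Finsupp.single_apply]

theorem mod_add_one (a k : ℕ) (h : a % (k + 1) ≠ k) : (a + 1) % (k + 1) = a % (k + 1) + 1 := by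
  have h4 : a % (k + 1) < k + 1 := Nat.mod_lt a (Nat.succ_pos k)
  have h5 : (a + 1) % (k + 1) = (a % (k + 1) + 1) % (k + 1) := by rw [Nat.mod_add_mod]
  rw [h5, Nat.mod_eq_of_lt (by omega)]

/-- Weakly increasing on the blocks of `g`. -/
def bm (g F : Fin n → ℕ) : Prop := ∀ i j : Fin n, j.val = i.val + 1 → g i = g j → F i ≤ F j

/-- Weakly increasing on the blocks given by `J`, the last position being free. -/
def wm (k : ℕ) (J : Finset ℕ) (h : Fin (k + 1) → ℕ) : Prop :=
  ∀ i j : Fin (k + 1), j.val = i.val + 1 → j.val ∉ insert k J → h i ≤ h j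

theorem inv_sort_lt_succ (w : Fin n → ℕ) (i j : Fin n) (hij : j.val = i.val + 1) :
    (Tuple.sort w)⁻¹ i < (Tuple.sort w)⁻¹ j ↔ w i ≤ w j := by
  rw [inv_sort_lt]
  have : i < j := by rw [Fin.lt_def]; omega
  constructor
  · rintro (h | h)
    · exact h.le
    · exact h.1.le
  · intro h
    rcases h.lt_or_eq with h | h
    · exact Or.inl h
    · exact Or.inr ⟨h, this⟩

theorem comp_inv_sort (g F : Fin n → ℕ) : comp g (Tuple.sort F)⁻¹ ↔ bm g F := by
  unfold comp bm
  refine forall_congr' fun i => forall_congr' fun j => forall_congr' fun hij => ?_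
  rw [inv_sort_lt_succ F i j hij]

theorem des_subset_iff (z : Equiv.Perm (Fin n)) (J : Finset ℕ) :
    Des z ⊆ J ↔ ∀ i j : Fin n, j.val = i.val + 1 → j.val ∉ J → z i < z j := by
  constructor
  · intro h i j hij hj
    by_contra hlt
    have hne : z i ≠ z j := fun h' => by
      have := congrArg Fin.val (z.injective h')
      omega
    refine hj (h ?_)
    rw [Des, Finset.mem_filter, Finset.mem_Ioo]
    exact ⟨⟨by omega, j.isLt⟩, i, j, by omega, rfl, lt_of_le_of_ne (not_lt.1 hlt) hne.symm⟩
  · intro h d hd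
    rw [Des, Finset.mem_filter] at hd
    obtain ⟨-, a, b, ha, hb, hlt⟩ := hd
    by_contra hdJ
    exact absurd (h a b (by omega) (by rwa [hb])) (not_lt.2 hlt.le)

theorem des_inv_sort (k : ℕ) (J : Finset ℕ) (h : Fin (k + 1) → ℕ) :
    Des (Tuple.sort h)⁻¹ ⊆ insert k J ↔ wm k J h := by
  rw [des_subset_iff, wm]
  refine forall_congr' fun i => forall_congr' fun j => forall_congr' fun hij => ?_
  rw [inv_sort_lt_succ h i j hij]

theorem blk_last (k : ℕ) (J : Finset ℕ) (i : Fin (k + 1)) :
    blk (k + 1) (insert k J) i = blk (k + 1) (insert k J) (Fin.last k) ↔ i = Fin.last k := by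
  constructor
  · intro h
    by_contra hi
    have hlt : i.val < k := by
      have := i.isLt
      have h2 : i.val ≠ k := fun h' => hi (Fin.ext h')
      omega
    refine absurd h (ne_of_lt (Finset.card_lt_card ?_))
    rw [Finset.ssubset_iff]
    refine ⟨k, ?_, ?_⟩
    · rw [Finset.mem_filter]
      omega
    · intro x hx
      rw [Finset.mem_insert, Finset.mem_filter] at hx
      rw [Finset.mem_filter, Fin.val_last]
      rcases hx with rfl | hx
      · exact ⟨Finset.mem_insert_self _ _, le_rfl⟩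
      · exact ⟨hx.1, by omega⟩
  · rintro rfl
    rfl

theorem sort_last_iff (k : ℕ) (J : Finset ℕ) (f : Fin (k + 1) → ℕ)
    (hf : f ∈ W (k + 1) (cont (blk (k + 1) (insert k J)))) :
    Tuple.sort f (Fin.last k) = Fin.last k ↔
      f (Fin.last k) = blk (k + 1) (insert k J) (Fin.last k) := by
  rw [mem_W] at hf
  have h1 : f ∘ Tuple.sort f = blk (k + 1) (insert k J) :=
    monotone_unique _ _ (Tuple.monotone_sort f) (blk_mono _) (by rw [cont_comp_perm, hf])
  constructor
  · intro h
    rw [← h1, Function.comp_apply, h]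
  · intro h
    have h2 : blk (k + 1) (insert k J) ((Tuple.sort f)⁻¹ (Fin.last k)) =
        blk (k + 1) (insert k J) (Fin.last k) := by
      conv_lhs => rw [← h1]
      rw [← h]
      simp
    rw [blk_last] at h2
    rw [Equiv.Perm.inv_eq_iff_eq] at h2
    exact h2.symm

open Classical in
/-- The right-hand side. -/
theorem right_count (k : ℕ) (J : Finset ℕ) (g : Fin (k + 1) → ℕ) (hg : Monotone g) (m : ℕ →₀ ℕ)
    (hm : cont g = m) :
    (∑ u : Equiv.Perm (Fin (k + 1)) with Des u ⊆ insert k J,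
      if u (Fin.last k) = Fin.last k then
        ∑ j ∈ Finset.range (k + 1), (if comp g (u⁻¹ * finRotate (k + 1) ^ j) then (1 : ℤ) else 0)
      else 0) = ∑ h ∈ W (k + 1) m, if wm k J h then (1 : ℤ) else 0 := by
  set b := blk (k + 1) (insert k J) with hb
  have hR : ∀ F ∈ W (k + 1) (cont b), ∃ p, ∀ i, F i = b (Fin.last k) ↔ i = p := by
    intro F hF
    rw [mem_W] at hF
    have h1 : (Finset.univ.filter fun i => F i = b (Fin.last k)).card = 1 := by
      rw [← cont_apply, hF, cont_apply, Finset.card_eq_one]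
      refine ⟨Fin.last k, ?_⟩
      ext i
      rw [Finset.mem_filter, Finset.mem_singleton, hb, blk_last]
      exact ⟨fun h => h.2, fun h => ⟨Finset.mem_univ _, h⟩⟩
    rw [Finset.card_eq_one] at h1
    obtain ⟨p, hp⟩ := h1
    refine ⟨p, fun i => ?_⟩
    have := Finset.ext_iff.1 hp i
    rw [Finset.mem_filter, Finset.mem_singleton] at this
    rw [← this]
    exact ⟨fun h => ⟨Finset.mem_univ _, h⟩, fun h => h.2⟩
  rw [sum_des_subset]
  -- pass to words
  have step1 : ∀ f ∈ W (k + 1) (cont b),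
      (if Tuple.sort f (Fin.last k) = Fin.last k then
        ∑ j ∈ Finset.range (k + 1),
          (if comp g ((Tuple.sort f)⁻¹ * finRotate (k + 1) ^ j) then (1 : ℤ) else 0)
      else 0) = ∑ j ∈ Finset.range (k + 1),
        if f (Fin.last k) = b (Fin.last k) ∧ bm g (f ∘ ⇑(finRotate (k + 1) ^ j)) then (1 : ℤ)
          else 0 := by
    intro f hf
    have h1 := sort_last_iff k J f hf
    rw [← hb] at h1
    by_cases hlast : f (Fin.last k) = b (Fin.last k)
    · rw [if_pos (h1.2 hlast)]
      refine Finset.sum_congr rfl fun j _ => ?_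
      refine if_congr ?_ rfl rfl
      have hu : ∀ i, f i = b (Fin.last k) ↔ i = Fin.last k := by
        obtain ⟨p, hp⟩ := hR f hf
        obtain rfl : Fin.last k = p := (hp _).1 hlast
        exact hp
      rw [and_iff_right hlast]
      unfold comp bm
      refine forall_congr' fun i => forall_congr' fun i' => forall_congr' fun hii => ?_
      refine imp_congr_right fun _ => ?_
      rw [Equiv.Perm.mul_apply, Equiv.Perm.mul_apply, inv_sort_lt, Function.comp_apply,
        Function.comp_apply]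
      constructor
      · rintro (h | h)
        · exact h.le
        · exact h.1.le
      · intro h
        rcases h.lt_or_eq with h | h
        · exact Or.inl h
        · refine Or.inr ⟨h, ?_⟩
          have hne : (finRotate (k + 1) ^ j) i ≠ Fin.last k := by
            intro h2
            rw [h2, hlast] at h
            have h3 := (hu _).1 h.symm
            rw [← h2] at h3
            have := congrArg Fin.val ((finRotate (k + 1) ^ j).injective h3)
            omega
          rw [Fin.lt_def, finRotate_pow_val, finRotate_pow_val]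
          rw [Ne, Fin.ext_iff, finRotate_pow_val, Fin.val_last] at hne
          rw [hii, show i.val + 1 + j = (i.val + j) + 1 by omega, mod_add_one _ _ hne]
          omega
    · rw [if_neg (fun h => hlast (h1.1 h))]
      symm
      refine Finset.sum_eq_zero fun j _ => ?_
      rw [if_neg (fun h => hlast h.1)]
  rw [Finset.sum_congr rfl step1, Finset.sum_comm]
  have step2 : ∀ j ∈ Finset.range (k + 1), (∑ f ∈ W (k + 1) (cont b),
      if f (Fin.last k) = b (Fin.last k) ∧ bm g (f ∘ ⇑(finRotate (k + 1) ^ j)) then (1 : ℤ)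
          else 0) = ∑ F ∈ W (k + 1) (cont b),
      if F ((finRotate (k + 1) ^ j)⁻¹ (Fin.last k)) = b (Fin.last k) ∧ bm g F then (1 : ℤ)
          else 0 := by
    intro j _
    rw [← sum_W_comp (cont b) (finRotate (k + 1) ^ j)
      (fun F => if F ((finRotate (k + 1) ^ j)⁻¹ (Fin.last k)) = b (Fin.last k) ∧ bm g F
        then (1 : ℤ) else 0)]
    refine Finset.sum_congr rfl fun f _ => ?_
    refine if_congr ?_ rfl rfl
    simp
  rw [Finset.sum_congr rfl step2, Finset.sum_comm]
  have step3 : ∀ F ∈ W (k + 1) (cont b), (∑ j ∈ Finset.range (k + 1),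
      if F ((finRotate (k + 1) ^ j)⁻¹ (Fin.last k)) = b (Fin.last k) ∧ bm g F then (1 : ℤ)
          else 0) = if comp g (Tuple.sort F)⁻¹ then (1 : ℤ) else 0 := by
    intro F hF
    obtain ⟨p, hp⟩ := hR F hF
    by_cases hF' : bm g F
    · rw [if_pos ((comp_inv_sort g F).2 hF')]
      have h2 := card_rot_last k p
      rw [Finset.card_filter] at h2
      have h3 : (∑ j ∈ Finset.range (k + 1),
          if (finRotate (k + 1) ^ j) p = Fin.last k then (1 : ℤ) else 0) = 1 := by
        exact_mod_cast h2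
      refine Eq.trans (Finset.sum_congr rfl fun j _ => ?_) h3
      refine if_congr ?_ rfl rfl
      rw [hp, and_iff_left hF', Equiv.Perm.inv_eq_iff_eq]
      exact eq_comm
    · rw [if_neg (fun h => hF' ((comp_inv_sort g F).1 h))]
      refine Finset.sum_eq_zero fun j _ => ?_
      rw [if_neg (fun h => hF' h.2)]
  rw [Finset.sum_congr rfl step3, hb,
    ← sum_des_subset (insert k J) (fun u => if comp g u⁻¹ then (1 : ℤ) else 0)]
  -- reindex by the inverse
  have step4 : (∑ u : Equiv.Perm (Fin (k + 1)) with Des u ⊆ insert k J,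
      if comp g u⁻¹ then (1 : ℤ) else 0) =
      ∑ z : Equiv.Perm (Fin (k + 1)) with comp g z,
        if Des z⁻¹ ⊆ insert k J then (1 : ℤ) else 0 := by
    rw [Finset.sum_filter, Finset.sum_filter, ← Equiv.sum_comp (Equiv.inv (Equiv.Perm (Fin (k + 1))))]
    refine Finset.sum_congr rfl fun z _ => ?_
    rw [Equiv.inv_apply, inv_inv]
    split_ifs <;> rfl
  rw [step4, ← sum_W_eq g hg m hm (fun z => if Des z⁻¹ ⊆ insert k J then (1 : ℤ) else 0)]
  refine Finset.sum_congr rfl fun h _ => ?_
  exact if_congr (des_inv_sort k J h) rfl rfl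


/-- The condition on the left-hand side. -/
def condL (k : ℕ) (J : Finset ℕ) (h : Fin (k + 1) → ℕ) (j : ℕ) : Prop :=
  (∀ a : Fin (k + 1), a ≠ Fin.last k → h a < h (Fin.last k) ∨ (h a = h (Fin.last k) ∧
    (finRotate (k + 1) ^ j) a < (finRotate (k + 1) ^ j) (Fin.last k))) ∧
  (∀ a b : Fin (k + 1), b.val = a.val + 1 → b.val ∉ insert k J → h a < h b ∨ (h a = h b ∧
    (finRotate (k + 1) ^ j) a < (finRotate (k + 1) ^ j) b))

open Classical in
/-- The left-hand side. -/
theorem left_count (k : ℕ) (J : Finset ℕ) (g : Fin (k + 1) → ℕ) (hg : Monotone g) (m : ℕ →₀ ℕ)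
    (hm : cont g = m) :
    (∑ u : Equiv.Perm (Fin (k + 1)) with Des u ⊆ insert k J,
      if u (Fin.last k) = Fin.last k then
        ∑ j ∈ Finset.range (k + 1), (if comp g (finRotate (k + 1) ^ j * u⁻¹) then (1 : ℤ) else 0)
      else 0) =
      ∑ j ∈ Finset.range (k + 1), ∑ h ∈ W (k + 1) m, if condL k J h j then (1 : ℤ) else 0 := by
  have step1 : (∑ u : Equiv.Perm (Fin (k + 1)) with Des u ⊆ insert k J,
      if u (Fin.last k) = Fin.last k then
        ∑ j ∈ Finset.range (k + 1), (if comp g (finRotate (k + 1) ^ j * u⁻¹) then (1 : ℤ) else 0)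
      else 0) = ∑ j ∈ Finset.range (k + 1), ∑ u : Equiv.Perm (Fin (k + 1)),
        if (Des u ⊆ insert k J ∧ u (Fin.last k) = Fin.last k) ∧
          comp g (finRotate (k + 1) ^ j * u⁻¹) then (1 : ℤ) else 0 := by
    rw [Finset.sum_comm, Finset.sum_filter]
    refine Finset.sum_congr rfl fun u _ => ?_
    by_cases h1 : Des u ⊆ insert k J
    · by_cases h2 : u (Fin.last k) = Fin.last k
      · rw [if_pos h1, if_pos h2]
        refine Finset.sum_congr rfl fun j _ => ?_
        exact if_congr (by simp [h1, h2]) rfl rfl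
      · rw [if_pos h1, if_neg h2]
        symm
        refine Finset.sum_eq_zero fun j _ => ?_
        rw [if_neg (fun h => h2 h.1.2)]
    · rw [if_neg h1]
      symm
      refine Finset.sum_eq_zero fun j _ => ?_
      rw [if_neg (fun h => h1 h.1.1)]
  rw [step1]
  refine Finset.sum_congr rfl fun j _ => ?_
  set c := finRotate (k + 1) ^ j with hc
  -- reindex by `u = z⁻¹ * c`
  have step2 : (∑ u : Equiv.Perm (Fin (k + 1)),
        if (Des u ⊆ insert k J ∧ u (Fin.last k) = Fin.last k) ∧
          comp g (c * u⁻¹) then (1 : ℤ) else 0) =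
      ∑ z : Equiv.Perm (Fin (k + 1)) with comp g z,
        if Des (z⁻¹ * c) ⊆ insert k J ∧ (z⁻¹ * c) (Fin.last k) = Fin.last k then (1 : ℤ)
          else 0 := by
    rw [Finset.sum_filter]
    rw [← Equiv.sum_comp ((Equiv.inv (Equiv.Perm (Fin (k + 1)))).trans (Equiv.mulRight c))]
    refine Finset.sum_congr rfl fun z _ => ?_
    simp only [Equiv.trans_apply, Equiv.inv_apply, Equiv.coe_mulRight]
    have h1 : c * (z⁻¹ * c)⁻¹ = z := by group
    rw [h1]
    by_cases h2 : comp g z
    · rw [if_pos h2]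
      exact if_congr (by simp [h2]) rfl rfl
    · rw [if_neg h2, if_neg (fun h => h2 h.2)]
  rw [step2, ← sum_W_eq g hg m hm (fun z => if Des (z⁻¹ * c) ⊆ insert k J ∧
    (z⁻¹ * c) (Fin.last k) = Fin.last k then (1 : ℤ) else 0)]
  rw [← sum_W_comp m c⁻¹ (fun w => if Des ((Tuple.sort w)⁻¹ * c) ⊆ insert k J ∧
    ((Tuple.sort w)⁻¹ * c) (Fin.last k) = Fin.last k then (1 : ℤ) else 0)]
  refine Finset.sum_congr rfl fun h _ => ?_
  refine if_congr ?_ rfl rfl
  have key : ∀ a b : Fin (k + 1), ((Tuple.sort (h ∘ ⇑c⁻¹))⁻¹ * c) a <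
      ((Tuple.sort (h ∘ ⇑c⁻¹))⁻¹ * c) b ↔ h a < h b ∨ (h a = h b ∧ c a < c b) := by
    intro a b
    rw [Equiv.Perm.mul_apply, Equiv.Perm.mul_apply, inv_sort_lt]
    simp
  rw [condL, des_subset_iff, and_comm]
  refine and_congr ?_ ?_
  · set u := (Tuple.sort (h ∘ ⇑c⁻¹))⁻¹ * c with hu
    constructor
    · intro h1 a ha
      rw [← key]
      rw [h1]
      refine lt_of_le_of_ne (Fin.le_last _) fun h2 => ?_
      rw [← h1] at h2
      exact ha (u.injective h2)
    · intro h1
      by_contra h2
      obtain ⟨a, ha⟩ := u.surjective (Fin.last k)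
      have h3 : a ≠ Fin.last k := fun h4 => h2 (h4 ▸ ha)
      have h4 := (key a (Fin.last k)).2 (h1 a h3)
      rw [ha] at h4
      exact absurd h4 (not_lt.2 (Fin.le_last _))
  · refine forall_congr' fun i => forall_congr' fun i' => ?_
    rw [key]

/-- A monotone word with given content. -/
theorem exists_mono (k : ℕ) (M : ℕ →₀ ℕ) (hM : Multiset.card (Finsupp.toMultiset M) = k) :
    ∃ V : Fin k → ℕ, Monotone V ∧ cont V = M := by
  subst hM
  set l := (Finsupp.toMultiset M).sort (fun a b => a ≤ b) with hl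
  have hlen : l.length = Multiset.card (Finsupp.toMultiset M) := by
    rw [hl, Multiset.length_sort]
  refine ⟨fun i => l.get (i.cast hlen.symm), ?_, ?_⟩
  · intro i j hij
    have hs : l.Pairwise (fun a b => a ≤ b) := Multiset.pairwise_sort _ _
    rcases hij.eq_or_lt with rfl | hlt
    · exact le_rfl
    · exact List.pairwise_iff_get.1 hs _ _ hlt
  · have : List.ofFn (fun i : Fin (Multiset.card (Finsupp.toMultiset M)) =>
        l.get (i.cast hlen.symm)) = l := by
      apply List.ext_getElem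
      · simp [hlen]
      · intro i h1 h2
        simp
    ext x
    rw [← Finsupp.count_toMultiset, ← Finsupp.count_toMultiset, toMultiset_cont, this, hl,
      Multiset.sort_eq]

theorem card_cont {n : ℕ} (w : Fin n → ℕ) : Multiset.card (Finsupp.toMultiset (cont w)) = n := by
  rw [toMultiset_cont]
  simp

theorem card_mapDomain (φ : ℕ → ℕ) (M : ℕ →₀ ℕ) :
    Multiset.card (Finsupp.toMultiset (M.mapDomain φ)) = Multiset.card (Finsupp.toMultiset M) := by
  rw [← Finsupp.toMultiset_map, Multiset.card_map]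

theorem cont_snoc {k : ℕ} (h : Fin (k + 1) → ℕ) :
    cont h = cont (fun i : Fin k => h i.castSucc) + Finsupp.single (h (Fin.last k)) 1 := by
  rw [cont, Fin.sum_univ_castSucc]
  rfl

theorem mem_support_cont {n : ℕ} (w : Fin n → ℕ) (x : ℕ) :
    x ∈ (cont w).support ↔ ∃ i, w i = x := by
  classical
  constructor
  · intro h
    have h1 : x ∈ Finsupp.toMultiset (cont w) := (Finsupp.mem_toMultiset _ _).2 h
    rw [toMultiset_cont] at h1
    simpa using h1
  · rintro ⟨i, rfl⟩
    rw [Finsupp.mem_support_iff]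
    exact (cont_apply_pos w i).ne'

theorem monotone_of_succ {n : ℕ} (f : Fin n → ℕ)
    (h : ∀ i j : Fin n, j.val = i.val + 1 → f i ≤ f j) : Monotone f := by
  intro a b hab
  obtain ⟨a, ha⟩ := a
  obtain ⟨b, hb⟩ := b
  rw [Fin.mk_le_mk] at hab
  obtain ⟨d, rfl⟩ : ∃ d, b = a + d := ⟨b - a, by omega⟩
  induction d with
  | zero => exact le_rfl
  | succ d ih =>
    exact (ih (by omega) (by omega)).trans (h ⟨a + d, by omega⟩ ⟨a + (d + 1), hb⟩ rfl)

section matrices

variable (N s : ℕ) (α m : ℕ →₀ ℕ)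

/-- Matrices with a marked entry. -/
def LL : Type := {p : (ℕ →₀ ℕ) × ℕ // p.1.mapDomain (fun x => x / N) = α ∧
  p.1.mapDomain (fun x => x % N) + Finsupp.single s 1 = m ∧ p.2 ∈ p.1.support ∧
  ∀ e ∈ p.1.support, e ≤ p.2 → e % N ≠ s}

/-- Matrices with another marginal. -/
def RR : Type := {M : ℕ →₀ ℕ // M.mapDomain (fun x => x / N) = α ∧
  ∃ x, x ≠ s ∧ M.mapDomain (fun x => x % N) + Finsupp.single x 1 = m}

/-- Replacement of an entry. -/
noncomputable def repl (M : ℕ →₀ ℕ) (e : ℕ) : ℕ →₀ ℕ :=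
  (M - Finsupp.single e 1) + Finsupp.single (e / N * N + s) 1

theorem repl_add (M : ℕ →₀ ℕ) (e : ℕ) (he : e ∈ M.support) :
    repl N s M e + Finsupp.single e 1 = M + Finsupp.single (e / N * N + s) 1 := by
  have h : Finsupp.single e 1 ≤ M := by
    rw [Finsupp.single_le_iff]
    exact Nat.one_le_iff_ne_zero.2 (Finsupp.mem_support_iff.1 he)
  rw [repl, add_right_comm, tsub_add_cancel_of_le h]

theorem bij (hN : 0 < N) (hs : s < N) (hmax : ∀ x ∈ m.support, x ≤ s) (hsm : s ∈ m.support) :
    Nat.card (LL N s α m) = Nat.card (RR N s α m) := by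
  classical
  have hdiv : ∀ e, (e / N * N + s) / N = e / N := fun e => by
    rw [Nat.div_eq_iff hN]
    constructor <;> omega
  have hmod : ∀ e, (e / N * N + s) % N = s := fun e => by
    rw [Nat.mul_add_mod', Nat.mod_eq_of_lt hs]
  have hF : ∀ p : LL N s α m, (repl N s p.1.1 p.1.2).mapDomain (fun x => x / N) = α ∧
      (p.1.2 % N ≠ s ∧ (repl N s p.1.1 p.1.2).mapDomain (fun x => x % N) +
        Finsupp.single (p.1.2 % N) 1 = m) := by
    rintro ⟨⟨M, e⟩, h1, h2, h3, h4⟩
    have h5 := repl_add N s M e h3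
    refine ⟨?_, h4 e h3 le_rfl, ?_⟩
    · have h6 := congrArg (Finsupp.mapDomain (fun x => x / N)) h5
      rw [Finsupp.mapDomain_add, Finsupp.mapDomain_add, Finsupp.mapDomain_single,
        Finsupp.mapDomain_single, hdiv] at h6
      exact (add_right_cancel h6).trans h1
    · have h6 := congrArg (Finsupp.mapDomain (fun x => x % N)) h5
      rw [Finsupp.mapDomain_add, Finsupp.mapDomain_add, Finsupp.mapDomain_single,
        Finsupp.mapDomain_single, hmod] at h6
      exact h6.trans h2
  let F : LL N s α m → RR N s α m := fun p =>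
    ⟨repl N s p.1.1 p.1.2, (hF p).1, p.1.2 % N, (hF p).2.1, (hF p).2.2⟩
  refine Nat.card_eq_of_bijective F ⟨?_, ?_⟩
  · -- injectivity
    rintro ⟨⟨M₁, e₁⟩, h₁⟩ ⟨⟨M₂, e₂⟩, h₂⟩ h
    have hR : repl N s M₁ e₁ = repl N s M₂ e₂ := congrArg Subtype.val h
    have hx₁ := (hF ⟨(M₁, e₁), h₁⟩).2.2
    have hx₂ := (hF ⟨(M₂, e₂), h₂⟩).2.2
    simp only at hx₁ hx₂ h₁ h₂
    have hx : e₁ % N = e₂ % N := by
      rw [← hR] at hx₂
      have h3 := add_left_cancel (hx₁.trans hx₂.symm)
      exact Finsupp.single_left_injective one_ne_zero h3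
    -- the position of the first `s`
    have hmin : ∀ (M : ℕ →₀ ℕ) (e : ℕ), e ∈ M.support → (∀ e' ∈ M.support, e' ≤ e → e' % N ≠ s) →
        (e / N * N + s ∈ (repl N s M e).support ∧
          ∀ e' ∈ (repl N s M e).support, e' % N = s → e / N * N + s ≤ e') := by
      intro M e he hM
      refine ⟨?_, ?_⟩
      · rw [Finsupp.mem_support_iff, repl]
        simp
      · intro e' he' hs'
        by_cases hne : e' = e / N * N + s
        · exact hne.ge
        · have h3 : e' ∈ M.support := by
            rw [Finsupp.mem_support_iff] at he' ⊢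
            intro h4
            apply he'
            rw [repl, Finsupp.add_apply, Finsupp.single_apply, if_neg (fun h => hne h.symm),
              Finsupp.tsub_apply, h4]
            simp
          have h4 : e < e' := by
            by_contra h5
            exact hM e' h3 (not_lt.1 h5) hs'
          have h5 : e / N ≤ e' / N := Nat.div_le_div_right h4.le
          have h6 : e' / N * N + e' % N = e' := Nat.div_add_mod' e' N
          rw [hs'] at h6
          have h7 : e / N * N ≤ e' / N * N := Nat.mul_le_mul_right N h5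
          omega
    obtain ⟨ha₁, hb₁⟩ := hmin M₁ e₁ h₁.2.2.1 h₁.2.2.2
    obtain ⟨ha₂, hb₂⟩ := hmin M₂ e₂ h₂.2.2.1 h₂.2.2.2
    rw [← hR] at ha₂ hb₂
    have hlo := hb₁ _ ha₂ (hmod e₂)
    have hhi := hb₂ _ ha₁ (hmod e₁)
    have hee : e₁ / N * N = e₂ / N * N := by omega
    have he : e₁ = e₂ := by
      rw [← Nat.div_add_mod' e₁ N, ← Nat.div_add_mod' e₂ N, hee, hx]
    subst he
    have h5 := repl_add N s M₁ e₁ h₁.2.2.1
    have h6 := repl_add N s M₂ e₁ h₂.2.2.1
    rw [hR] at h5
    have h7 : M₁ = M₂ := add_right_cancel (h5.symm.trans h6)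
    subst h7
    rfl
  · -- surjectivity
    rintro ⟨M', h1, x, hx, h2⟩
    have hxs : x < s := by
      refine lt_of_le_of_ne (hmax x ?_) hx
      rw [← h2, Finsupp.mem_support_iff, Finsupp.add_apply, Finsupp.single_eq_same]
      omega
    have hxN : x < N := hxs.trans hs
    have hex : ∃ e, e ∈ M'.support ∧ e % N = s := by
      have h3 : (M'.mapDomain (fun x => x % N)) s ≠ 0 := by
        rw [← h2, Finsupp.mem_support_iff, Finsupp.add_apply,
          Finsupp.single_eq_of_ne hx.symm, add_zero] at hsm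
        exact hsm
      have h4 := Finsupp.mapDomain_support (Finsupp.mem_support_iff.2 h3)
      rw [Finset.mem_image] at h4
      obtain ⟨e, he, hes⟩ := h4
      exact ⟨e, he, hes⟩
    obtain ⟨ha1, ha2⟩ := Nat.find_spec hex
    have hamin : ∀ e, e ∈ M'.support → e % N = s → Nat.find hex ≤ e := fun e he hes =>
      Nat.find_min' hex ⟨he, hes⟩
    set a := Nat.find hex with ha
    have haa : a / N * N + s = a := by
      have := Nat.div_add_mod' a N
      rw [ha2] at this
      exact this
    set e := a / N * N + x with he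
    have hediv : e / N = a / N := by
      rw [he, Nat.div_eq_iff hN]
      constructor <;> omega
    have hemod : e % N = x := by
      rw [he, Nat.mul_add_mod', Nat.mod_eq_of_lt hxN]
    have hea : e < a := by omega
    have hle : Finsupp.single a 1 ≤ M' := by
      rw [Finsupp.single_le_iff]
      exact Nat.one_le_iff_ne_zero.2 (Finsupp.mem_support_iff.1 ha1)
    obtain ⟨M, hM⟩ : ∃ M : ℕ →₀ ℕ, M = (M' - Finsupp.single a 1) + Finsupp.single e 1 := ⟨_, rfl⟩
    have hMM : M + Finsupp.single a 1 = M' + Finsupp.single e 1 := by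
      rw [hM, add_right_comm, tsub_add_cancel_of_le hle]
    have heM : e ∈ M.support := by
      rw [Finsupp.mem_support_iff, hM]
      simp
    have hrep : repl N s M e = M' := by
      have h5 := repl_add N s M e heM
      rw [hediv, haa, hMM] at h5
      exact add_right_cancel h5
    refine ⟨⟨(M, e), ?_, ?_, heM, ?_⟩, Subtype.ext hrep⟩
    · have h6 := congrArg (Finsupp.mapDomain (fun x => x / N)) hMM
      rw [Finsupp.mapDomain_add, Finsupp.mapDomain_add, Finsupp.mapDomain_single,
        Finsupp.mapDomain_single, hediv] at h6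
      exact (add_right_cancel h6).trans h1
    · have h6 := congrArg (Finsupp.mapDomain (fun x => x % N)) hMM
      rw [Finsupp.mapDomain_add, Finsupp.mapDomain_add, Finsupp.mapDomain_single,
        Finsupp.mapDomain_single, hemod, ha2] at h6
      exact h6.trans h2
    · intro e' he' hle'
      by_cases hee : e' = e
      · rw [hee, hemod]
        exact hx
      · intro hes
        have h7 : e' ∈ M'.support := by
          simp only at he'
          rw [Finsupp.mem_support_iff] at he' ⊢
          intro h8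
          apply he'
          rw [hM, Finsupp.add_apply, Finsupp.single_apply, if_neg (fun h => hee h.symm),
            Finsupp.tsub_apply, h8]
          simp
        have h8 := hamin e' h7 hes
        simp only at hle'
        omega

end matrices


/-! ### Words and matrices -/

section words

variable (k N s : ℕ) (J : Finset ℕ) (m : ℕ →₀ ℕ)

/-- The word of pairs. -/
def VV (h : Fin (k + 1) → ℕ) : Fin k → ℕ := fun i => blk k J i * N + h i.castSucc

theorem VV_div (hN : 0 < N) (h : Fin (k + 1) → ℕ) (hb : ∀ i, h i < N) :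
    (fun x => x / N) ∘ VV k N J h = blk k J := by
  funext i
  show (blk k J i * N + h i.castSucc) / N = blk k J i
  have := hb i.castSucc
  rw [Nat.div_eq_iff hN]
  constructor <;> omega

theorem VV_mod (h : Fin (k + 1) → ℕ) (hb : ∀ i, h i < N) :
    (fun x => x % N) ∘ VV k N J h = fun i => h i.castSucc := by
  funext i
  show (blk k J i * N + h i.castSucc) % N = h i.castSucc
  rw [Nat.mul_add_mod', Nat.mod_eq_of_lt (hb _)]

/-- From a matrix to a word. -/
theorem exists_word (hN : 0 < N) (M : ℕ →₀ ℕ) (x : ℕ)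
    (h1 : M.mapDomain (fun x => x / N) = cont (blk k J))
    (h2 : M.mapDomain (fun x => x % N) + Finsupp.single x 1 = m) :
    ∃ h : Fin (k + 1) → ℕ, cont h = m ∧ Monotone (VV k N J h) ∧ h (Fin.last k) = x ∧
      cont (VV k N J h) = M := by
  have hcard : Multiset.card (Finsupp.toMultiset M) = k := by
    rw [← card_mapDomain (fun x => x / N) M, h1, card_cont]
  obtain ⟨V, hV, hVM⟩ := exists_mono k M hcard
  have hdiv : (fun x => x / N) ∘ V = blk k J := by
    refine monotone_unique _ _ (fun i j hij => Nat.div_le_div_right (hV hij)) (blk_mono J) ?_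
    rw [cont_map, hVM, h1]
  have hVV : VV k N J (Fin.snoc (α := fun _ => ℕ) (fun i => V i % N) x) = V := by
    funext i
    rw [VV, Fin.snoc_castSucc, ← hdiv]
    exact Nat.div_add_mod' (V i) N
  refine ⟨Fin.snoc (α := fun _ => ℕ) (fun i => V i % N) x, ?_, ?_, ?_, ?_⟩
  · rw [cont_snoc, Fin.snoc_last, ← h2]
    congr 1
    simp only [Fin.snoc_castSucc]
    rw [← hVM, ← cont_map]
    rfl
  · rw [hVV]
    exact hV
  · rw [Fin.snoc_last]
  · rw [hVV, hVM]

theorem VV_inj (hN : 0 < N) (h₁ h₂ : Fin (k + 1) → ℕ) (hb₁ : ∀ i, h₁ i < N) (hb₂ : ∀ i, h₂ i < N)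
    (hm₁ : Monotone (VV k N J h₁)) (hm₂ : Monotone (VV k N J h₂))
    (hc : cont (VV k N J h₁) = cont (VV k N J h₂)) (hcc : cont h₁ = cont h₂) : h₁ = h₂ := by
  have h3 : VV k N J h₁ = VV k N J h₂ := monotone_unique _ _ hm₁ hm₂ hc
  have h4 : (fun i : Fin k => h₁ i.castSucc) = fun i => h₂ i.castSucc := by
    rw [← VV_mod k N J h₁ hb₁, ← VV_mod k N J h₂ hb₂, h3]
  rw [cont_snoc h₁, cont_snoc h₂, h4] at hcc
  have h5 := Finsupp.single_left_injective one_ne_zero (add_left_cancel hcc)
  funext i
  refine Fin.lastCases h5 (fun i => ?_) i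
  exact congrFun h4 i

/-- The words on the right. -/
def RT : Type := {h : Fin (k + 1) → ℕ // cont h = m ∧ Monotone (VV k N J h) ∧ h (Fin.last k) ≠ s}

/-- The words with a cut on the left. -/
def LT : Type := {p : ℕ × (Fin (k + 1) → ℕ) // (1 ≤ p.1 ∧ p.1 ≤ k) ∧ cont p.2 = m ∧
  Monotone (VV k N J p.2) ∧ p.2 (Fin.last k) = s ∧
  (∀ i : Fin k, i.val < p.1 → p.2 i.castSucc ≠ s) ∧
  ∀ i j : Fin k, i.val + 1 = p.1 → j.val = p.1 → VV k N J p.2 i < VV k N J p.2 j}

theorem card_RT (hN : 0 < N) (hb : ∀ h : Fin (k + 1) → ℕ, cont h = m → ∀ i, h i < N) :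
    Nat.card (RT k N s J m) = Nat.card (RR N s (cont (blk k J)) m) := by
  let F : RT k N s J m → RR N s (cont (blk k J)) m := fun h =>
    ⟨cont (VV k N J h.1), by rw [← cont_map, VV_div k N J hN h.1 (hb _ h.2.1)],
      h.1 (Fin.last k), h.2.2.2, by
        rw [← cont_map, VV_mod k N J h.1 (hb _ h.2.1), ← cont_snoc, h.2.1]⟩
  refine Nat.card_eq_of_bijective F ⟨?_, ?_⟩
  · rintro ⟨h₁, a₁, b₁, c₁⟩ ⟨h₂, a₂, b₂, c₂⟩ h
    have h3 : cont (VV k N J h₁) = cont (VV k N J h₂) := congrArg Subtype.val h
    exact Subtype.ext (VV_inj k N J hN h₁ h₂ (hb _ a₁) (hb _ a₂) b₁ b₂ h3 (a₁.trans a₂.symm))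
  · rintro ⟨M, h1, x, hx, h2⟩
    obtain ⟨h, e1, e2, e3, e4⟩ := exists_word k N J m hN M x h1 h2
    exact ⟨⟨h, e1, e2, by rw [e3]; exact hx⟩, Subtype.ext e4⟩

theorem card_LT (hN : 0 < N) (hs : s < N) (hb : ∀ h : Fin (k + 1) → ℕ, cont h = m → ∀ i, h i < N) :
    Nat.card (LT k N s J m) = Nat.card (LL N s (cont (blk k J)) m) := by
  classical
  have hmodV : ∀ (h : Fin (k + 1) → ℕ), cont h = m → ∀ i : Fin k,
      VV k N J h i % N = h i.castSucc := by
    intro h hh i
    exact congrFun (VV_mod k N J h (hb _ hh)) i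
  let F : LT k N s J m → LL N s (cont (blk k J)) m := fun p =>
    ⟨(cont (VV k N J p.1.2), VV k N J p.1.2 ⟨p.1.1 - 1, by
        have := p.2.1
        omega⟩),
      by rw [← cont_map, VV_div k N J hN p.1.2 (hb _ p.2.2.1)],
      by
        have hps := p.2.2.2.2.1
        have hpm := p.2.2.1
        rw [cont_snoc, hps] at hpm
        rw [← cont_map, VV_mod k N J p.1.2 (hb _ p.2.2.1)]
        exact hpm,
      by
        rw [mem_support_cont]
        exact ⟨_, rfl⟩,
      by
        intro e he hle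
        rw [mem_support_cont] at he
        obtain ⟨i, rfl⟩ := he
        rw [hmodV _ p.2.2.1]
        obtain ⟨⟨t, h⟩, ⟨ht1, ht2⟩, h1, h2, h3, h4, h5⟩ := p
        simp only at hle ⊢
        by_cases hit : i.val < t
        · exact h4 i hit
        · exfalso
          by_cases htk : t < k
          · have h6 : VV k N J h ⟨t - 1, by omega⟩ < VV k N J h ⟨t, htk⟩ :=
              h5 ⟨t - 1, by omega⟩ ⟨t, htk⟩ (by simp only; omega) rfl
            have h7 : VV k N J h ⟨t, htk⟩ ≤ VV k N J h i := h2 (by rw [Fin.le_def]; simp only; omega)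
            omega
          · have := i.isLt
            omega⟩
  refine Nat.card_eq_of_bijective F ⟨?_, ?_⟩
  · rintro ⟨⟨t₁, h₁⟩, ⟨a₁, a₁'⟩, b₁, c₁, d₁, e₁, f₁⟩ ⟨⟨t₂, h₂⟩, ⟨a₂, a₂'⟩, b₂, c₂, d₂, e₂, f₂⟩ h
    simp only at a₁ a₁' b₁ c₁ d₁ e₁ f₁ a₂ a₂' b₂ c₂ d₂ e₂ f₂
    have h3 : cont (VV k N J h₁) = cont (VV k N J h₂) := congrArg (fun x => x.1.1) h
    have h4 : h₁ = h₂ := VV_inj k N J hN h₁ h₂ (hb _ b₁) (hb _ b₂) c₁ c₂ h3 (b₁.trans b₂.symm)
    subst h4
    have h5 : VV k N J h₁ ⟨t₁ - 1, by omega⟩ = VV k N J h₁ ⟨t₂ - 1, by omega⟩ :=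
      congrArg (fun x => x.1.2) h
    have key : ∀ t t' : ℕ, 1 ≤ t → (ht : t ≤ k) → 1 ≤ t' → (ht' : t' ≤ k) → t < t' →
        (∀ i j : Fin k, i.val + 1 = t → j.val = t → VV k N J h₁ i < VV k N J h₁ j) →
        VV k N J h₁ ⟨t - 1, by omega⟩ < VV k N J h₁ ⟨t' - 1, by omega⟩ := by
      intro t t' h1 ht h1' ht' htt hf
      have h6 := hf ⟨t - 1, by omega⟩ ⟨t, by omega⟩ (by simp only; omega) rfl
      have h7 : VV k N J h₁ ⟨t, by omega⟩ ≤ VV k N J h₁ ⟨t' - 1, by omega⟩ :=
        c₁ (by rw [Fin.mk_le_mk]; omega)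
      omega
    have htt : t₁ = t₂ := by
      rcases lt_trichotomy t₁ t₂ with hlt | heq | hlt
      · have := key t₁ t₂ a₁ a₁' a₂ a₂' hlt f₁
        omega
      · exact heq
      · have := key t₂ t₁ a₂ a₂' a₁ a₁' hlt f₂
        omega
    subst htt
    rfl
  · rintro ⟨⟨M, e⟩, h1, h2, h3, h4⟩
    simp only at h1 h2 h3 h4
    obtain ⟨h, e1, e2, e3, e4⟩ := exists_word k N J m hN M s h1 h2
    -- the cut
    have hcut : ∀ i : Fin k, i.val < (Finset.univ.filter fun i : Fin k => VV k N J h i ≤ e).card ↔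
        VV k N J h i ≤ e := fun i => Tuple.lt_card_le_iff_apply_le_of_monotone e2
    set t := (Finset.univ.filter fun i : Fin k => VV k N J h i ≤ e).card with ht
    have htk : t ≤ k := by
      have := Finset.card_le_univ (Finset.univ.filter fun i : Fin k => VV k N J h i ≤ e)
      rw [Fintype.card_fin] at this
      exact this
    obtain ⟨i₀, hi₀⟩ : ∃ i, VV k N J h i = e := by
      rw [← mem_support_cont, e4]
      exact h3
    have hi₀t : i₀.val < t := (hcut i₀).2 hi₀.le
    have ht1 : 1 ≤ t := by omega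
    have hlast : VV k N J h ⟨t - 1, by omega⟩ = e := by
      apply le_antisymm
      · exact (hcut ⟨t - 1, by omega⟩).1 (by simp only; omega)
      · exact hi₀.symm.le.trans (e2 (by rw [Fin.le_def]; simp only; omega))
    refine ⟨⟨(t, h), ⟨ht1, htk⟩, e1, e2, e3, ?_, ?_⟩, ?_⟩
    · intro i hi
      simp only at hi ⊢
      rw [← hmodV h e1]
      refine h4 _ ?_ ((hcut i).1 hi)
      rw [← e4, mem_support_cont]
      exact ⟨i, rfl⟩
    · intro i j hi hj
      simp only at hi hj ⊢
      have h5 : VV k N J h i ≤ e := (hcut i).1 (by omega)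
      have h6 : ¬ VV k N J h j ≤ e := fun h7 => by
        have := (hcut j).2 h7
        omega
      omega
    · exact Subtype.ext (Prod.ext e4 hlast)

theorem monotone_VV_iff (h : Fin (k + 1) → ℕ) (hb : ∀ i, h i < N) :
    Monotone (VV k N J h) ↔ wm k J h := by
  constructor
  · intro hV i j hij hj
    rw [Finset.mem_insert, not_or] at hj
    have hjk : j.val < k := by
      have := j.isLt
      omega
    have h1 : blk k J ⟨i.val, by omega⟩ = blk k J ⟨j.val, hjk⟩ := by
      have h2 := mt (blk_lt_iff J ⟨i.val, by omega⟩ ⟨j.val, hjk⟩ hij).1 hj.2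
      exact le_antisymm (blk_mono J (by rw [Fin.mk_le_mk]; omega)) (not_lt.1 h2)
    have h3 := hV (show (⟨i.val, by omega⟩ : Fin k) ≤ ⟨j.val, hjk⟩ by rw [Fin.mk_le_mk]; omega)
    simp only [VV] at h3
    rw [h1] at h3
    have h4 : h (Fin.castSucc ⟨i.val, by omega⟩) = h i := rfl
    have h5 : h (Fin.castSucc ⟨j.val, hjk⟩) = h j := rfl
    rw [h4, h5] at h3
    omega
  · intro hw
    refine monotone_of_succ _ fun i j hij => ?_
    simp only [VV]
    by_cases hj : j.val ∈ J
    · have h1 := (blk_lt_iff J i j hij).2 hj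
      have h2 := Nat.mul_le_mul_right N (Nat.succ_le_of_lt h1)
      rw [Nat.succ_mul] at h2
      have h3 := hb i.castSucc
      omega
    · have h2 := mt (blk_lt_iff J i j hij).1 hj
      have h1 : blk k J i = blk k J j :=
        le_antisymm (blk_mono J (by rw [Fin.le_def]; omega)) (not_lt.1 h2)
      rw [h1]
      have h3 := hw i.castSucc j.castSucc hij (by
        rw [Finset.mem_insert, not_or]
        refine ⟨?_, hj⟩
        have := j.isLt
        simp only [Fin.val_castSucc]
        omega)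
      omega

end words


/-! ### The final count -/

theorem rot_lt (k j : ℕ) (hj : j ≤ k) (a b : Fin (k + 1)) (hab : a.val < b.val) :
    (finRotate (k + 1) ^ j) a < (finRotate (k + 1) ^ j) b ↔
      ¬ (a.val < k + 1 - j ∧ k + 1 - j ≤ b.val) := by
  rw [Fin.lt_def, finRotate_pow_val, finRotate_pow_val]
  have ha := a.isLt
  have hb := b.isLt
  by_cases h1 : b.val + j < k + 1
  · rw [Nat.mod_eq_of_lt h1, Nat.mod_eq_of_lt (by omega)]
    omega
  · have h2 : (b.val + j) % (k + 1) = b.val + j - (k + 1) := by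
      rw [Nat.mod_eq_sub_mod (by omega), Nat.mod_eq_of_lt (by omega)]
    by_cases h3 : a.val + j < k + 1
    · rw [h2, Nat.mod_eq_of_lt h3]
      omega
    · have h4 : (a.val + j) % (k + 1) = a.val + j - (k + 1) := by
        rw [Nat.mod_eq_sub_mod (by omega), Nat.mod_eq_of_lt (by omega)]
      rw [h2, h4]
      omega

theorem condL_zero (k : ℕ) (J : Finset ℕ) (h : Fin (k + 1) → ℕ) (s : ℕ)
    (hmax : ∀ i, h i ≤ s) (hs : ∃ i, h i = s) :
    condL k J h 0 ↔ (h (Fin.last k) = s ∧ wm k J h) := by
  rw [condL]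
  simp only [pow_zero, Equiv.Perm.one_apply]
  constructor
  · rintro ⟨h1, h2⟩
    refine ⟨?_, ?_⟩
    · obtain ⟨i, hi⟩ := hs
      by_cases hil : i = Fin.last k
      · rw [← hil, hi]
      · have h3 := hmax (Fin.last k)
        rcases h1 i hil with h4 | h4
        · omega
        · omega
    · intro a b hab hb
      rcases h2 a b hab hb with h3 | h3
      · exact h3.le
      · exact h3.1.le
  · rintro ⟨h1, h2⟩
    refine ⟨?_, ?_⟩
    · intro a ha
      have h3 := hmax a
      rw [← h1] at h3
      rcases h3.lt_or_eq with h4 | h4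
      · exact Or.inl h4
      · exact Or.inr ⟨h4, lt_of_le_of_ne (Fin.le_last _) ha⟩
    · intro a b hab hb
      rcases (h2 a b hab hb).lt_or_eq with h4 | h4
      · exact Or.inl h4
      · exact Or.inr ⟨h4, by rw [Fin.lt_def]; omega⟩

theorem condL_succ (k N s : ℕ) (J : Finset ℕ) (h : Fin (k + 1) → ℕ) (hbN : ∀ i, h i < N)
    (hmax : ∀ i, h i ≤ s) (hs : ∃ i, h i = s) (j : ℕ) (hj : j < k) :
    condL k J h (j + 1) ↔ (Monotone (VV k N J h) ∧ h (Fin.last k) = s ∧
      (∀ i : Fin k, i.val < k - j → h i.castSucc ≠ s) ∧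
      ∀ i i' : Fin k, i.val + 1 = k - j → i'.val = k - j → VV k N J h i < VV k N J h i') := by
  have hr : ∀ a b : Fin (k + 1), a.val < b.val →
      ((finRotate (k + 1) ^ (j + 1)) a < (finRotate (k + 1) ^ (j + 1)) b ↔
        ¬ (a.val < k - j ∧ k - j ≤ b.val)) := by
    intro a b hab
    rw [rot_lt k (j + 1) (by omega) a b hab, show k + 1 - (j + 1) = k - j by omega]
  have hlt : ∀ a : Fin (k + 1), a ≠ Fin.last k → a.val < (Fin.last k).val := by
    intro a ha
    have h1 := a.isLt
    have h2 : a.val ≠ k := fun h' => ha (Fin.ext h')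
    rw [Fin.val_last]
    omega
  rw [monotone_VV_iff k N J h hbN, condL]
  constructor
  · rintro ⟨h1, h2⟩
    have hls : h (Fin.last k) = s := by
      obtain ⟨i, hi⟩ := hs
      by_cases hil : i = Fin.last k
      · rw [← hil, hi]
      · have h3 := hmax (Fin.last k)
        rcases h1 i hil with h4 | h4
        · omega
        · omega
    refine ⟨?_, hls, ?_, ?_⟩
    · intro a b hab hb
      rcases h2 a b hab hb with h3 | h3
      · exact h3.le
      · exact h3.1.le
    · intro i hi his
      have hne : i.castSucc ≠ Fin.last k := (Fin.castSucc_lt_last i).ne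
      rcases h1 i.castSucc hne with h4 | h4
      · omega
      · have h5 := (hr _ _ (hlt _ hne)).1 h4.2
        rw [Fin.val_last, Fin.val_castSucc] at h5
        omega
    · intro i i' hi hi'
      simp only [VV]
      by_cases hJ : i'.val ∈ J
      · have h3 := (blk_lt_iff J i i' (by omega)).2 hJ
        have h4 := Nat.mul_le_mul_right N (Nat.succ_le_of_lt h3)
        rw [Nat.succ_mul] at h4
        have h5 := hbN i.castSucc
        omega
      · have h3 := mt (blk_lt_iff J i i' (by omega)).1 hJ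
        have h4 : blk k J i = blk k J i' :=
          le_antisymm (blk_mono J (by rw [Fin.le_def]; omega)) (not_lt.1 h3)
        have h5 := h2 i.castSucc i'.castSucc (by simp only [Fin.val_castSucc]; omega) (by
          rw [Finset.mem_insert, not_or]
          refine ⟨?_, hJ⟩
          have := i'.isLt
          simp only [Fin.val_castSucc]
          omega)
        rcases h5 with h6 | h6
        · rw [h4]
          omega
        · have h7 := (hr _ _ (by simp only [Fin.val_castSucc]; omega)).1 h6.2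
          simp only [Fin.val_castSucc] at h7
          omega
  · rintro ⟨hw, hls, h3, h4⟩
    refine ⟨?_, ?_⟩
    · intro a ha
      have h5 := hmax a
      rw [← hls] at h5
      rcases h5.lt_or_eq with h6 | h6
      · exact Or.inl h6
      · refine Or.inr ⟨h6, ?_⟩
        rw [hr _ _ (hlt a ha)]
        rintro ⟨h7, -⟩
        have h8 := hlt a ha
        rw [Fin.val_last] at h8
        exact h3 ⟨a.val, h8⟩ h7 (h6.trans hls)
    · intro a b hab hb
      rcases (hw a b hab hb).lt_or_eq with h6 | h6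
      · exact Or.inl h6
      · refine Or.inr ⟨h6, ?_⟩
        rw [hr _ _ (by omega)]
        rintro ⟨h7, h8⟩
        rw [Finset.mem_insert, not_or] at hb
        have hbk : b.val < k := by
          have := b.isLt
          omega
        have h9 := h4 ⟨a.val, by omega⟩ ⟨b.val, hbk⟩ (by simp only; omega) (by simp only; omega)
        simp only [VV] at h9
        have h10 := mt (blk_lt_iff J ⟨a.val, by omega⟩ ⟨b.val, hbk⟩ hab).1 hb.2
        have h11 : blk k J ⟨a.val, by omega⟩ = blk k J ⟨b.val, hbk⟩ :=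
          le_antisymm (blk_mono J (by rw [Fin.mk_le_mk]; omega)) (not_lt.1 h10)
        rw [h11] at h9
        have h12 : h (Fin.castSucc ⟨a.val, by omega⟩) = h a := rfl
        have h13 : h (Fin.castSucc ⟨b.val, hbk⟩) = h b := rfl
        rw [h12, h13] at h9
        omega

open Classical in
theorem final_count (k : ℕ) (J : Finset ℕ) (g : Fin (k + 1) → ℕ) (hg : Monotone g) (m : ℕ →₀ ℕ)
    (hm : cont g = m) :
    (∑ j ∈ Finset.range (k + 1), ∑ h ∈ W (k + 1) m, if condL k J h j then (1 : ℤ) else 0) =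
      ∑ h ∈ W (k + 1) m, if wm k J h then (1 : ℤ) else 0 := by
  obtain ⟨N, hN⟩ := exists_bound (n := k + 1) m
  have hb : ∀ h : Fin (k + 1) → ℕ, cont h = m → ∀ i, h i < N := fun h hh i =>
    hN h ((mem_W _ _).2 hh) i
  set s := g (Fin.last k) with hs
  have hmaxg : ∀ x ∈ m.support, x ≤ s := by
    intro x hx
    rw [← hm, mem_support_cont] at hx
    obtain ⟨i, rfl⟩ := hx
    exact hg (Fin.le_last i)
  have hsm : s ∈ m.support := by
    rw [← hm, mem_support_cont]
    exact ⟨_, rfl⟩
  have hmax : ∀ h : Fin (k + 1) → ℕ, cont h = m → ∀ i, h i ≤ s := by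
    intro h hh i
    apply hmaxg
    rw [← hh, mem_support_cont]
    exact ⟨i, rfl⟩
  have hex : ∀ h : Fin (k + 1) → ℕ, cont h = m → ∃ i, h i = s := by
    intro h hh
    rw [← mem_support_cont, hh]
    exact hsm
  have hsN : s < N := hb g hm _
  have hN0 : 0 < N := by omega
  rw [Finset.sum_range_succ']
  -- the unrotated words
  have e0 : (∑ h ∈ W (k + 1) m, if condL k J h 0 then (1 : ℤ) else 0) =
      ∑ h ∈ W (k + 1) m, if h (Fin.last k) = s ∧ wm k J h then (1 : ℤ) else 0 := by
    refine Finset.sum_congr rfl fun h hh => ?_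
    rw [mem_W] at hh
    exact if_congr (condL_zero k J h s (hmax h hh) (hex h hh)) rfl rfl
  have e1 : (∑ j ∈ Finset.range k, ∑ h ∈ W (k + 1) m,
      if condL k J h (j + 1) then (1 : ℤ) else 0) = Nat.card (LT k N s J m) := by
    rw [← Finset.sum_product' (f := fun j h => if condL k J h (j + 1) then (1 : ℤ) else 0),
      ← Finset.sum_filter, Finset.sum_const, nsmul_eq_mul, mul_one]
    congr 1
    rw [← Fintype.card_coe, ← Nat.card_eq_fintype_card]
    refine Nat.card_congr
      { toFun := fun p => ⟨(k - p.1.1, p.1.2), ?_⟩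
        invFun := fun p => ⟨(k - p.1.1, p.1.2), ?_⟩
        left_inv := ?_
        right_inv := ?_ }
    · have hp := p.2
      rw [Finset.mem_filter, Finset.mem_product, Finset.mem_range, mem_W] at hp
      obtain ⟨⟨h1, h2⟩, h3⟩ := hp
      rw [condL_succ k N s J p.1.2 (hb _ h2) (hmax _ h2) (hex _ h2) p.1.1 h1] at h3
      refine ⟨?_, h2, h3.1, h3.2.1, h3.2.2.1, h3.2.2.2⟩
      simp only
      omega
    · obtain ⟨⟨h1, h1'⟩, h2, h3, h4, h5, h6⟩ := p.2
      rw [Finset.mem_filter, Finset.mem_product, Finset.mem_range, mem_W]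
      have h7 : k - p.1.1 < k := by omega
      refine ⟨⟨h7, h2⟩, ?_⟩
      simp only
      rw [condL_succ k N s J p.1.2 (hb _ h2) (hmax _ h2) (hex _ h2) _ h7]
      have h8 : k - (k - p.1.1) = p.1.1 := by omega
      rw [h8]
      exact ⟨h3, h4, h5, h6⟩
    · intro p
      have hp := p.2
      rw [Finset.mem_filter, Finset.mem_product, Finset.mem_range] at hp
      apply Subtype.ext
      apply Prod.ext
      · simp only
        have := hp.1.1
        omega
      · rfl
    · intro p
      obtain ⟨⟨h1, h1'⟩, -⟩ := p.2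
      apply Subtype.ext
      apply Prod.ext
      · simp only
        omega
      · rfl
  have e2 : (∑ h ∈ W (k + 1) m, if wm k J h then (1 : ℤ) else 0) =
      (∑ h ∈ W (k + 1) m, if wm k J h ∧ h (Fin.last k) ≠ s then (1 : ℤ) else 0) +
      ∑ h ∈ W (k + 1) m, if h (Fin.last k) = s ∧ wm k J h then (1 : ℤ) else 0 := by
    rw [← Finset.sum_add_distrib]
    refine Finset.sum_congr rfl fun h _ => ?_
    by_cases h1 : wm k J h <;> by_cases h2 : h (Fin.last k) = s <;> simp [h1, h2]
  have e3 : (∑ h ∈ W (k + 1) m, if wm k J h ∧ h (Fin.last k) ≠ s then (1 : ℤ) else 0) =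
      Nat.card (RT k N s J m) := by
    rw [← Finset.sum_filter, Finset.sum_const, nsmul_eq_mul, mul_one]
    congr 1
    rw [← Fintype.card_coe, ← Nat.card_eq_fintype_card]
    refine Nat.card_congr (Equiv.subtypeEquivRight fun h => ?_)
    rw [Finset.mem_filter, mem_W]
    constructor
    · rintro ⟨h1, h2, h3⟩
      exact ⟨h1, (monotone_VV_iff k N J h (hb h h1)).2 h2, h3⟩
    · rintro ⟨h1, h2, h3⟩
      exact ⟨h1, (monotone_VV_iff k N J h (hb h h1)).1 h2, h3⟩
  rw [e0, e1, e2, e3, card_LT k N s J m hN0 hsN hb, card_RT k N s J m hN0 hb,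
    bij N s (cont (blk k J)) m hN0 hsN hmaxg hsm]


/-! ### The theorem on rotations -/

theorem sum_prodM (A B : Multiset (Equiv.Perm (Fin n))) (F : Equiv.Perm (Fin n) → ℤ) :
    ((prodM A B).map F).sum = (A.map fun a => (B.map fun b => F (a * b)).sum).sum := by
  induction A using Multiset.induction_on with
  | empty => simp [prodM]
  | cons a A ih =>
    have h : prodM (a ::ₘ A) B = B.map (fun b => a * b) + prodM A B := by
      rw [prodM, Multiset.cons_product, Multiset.map_add, Multiset.map_map, prodM]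
      rfl
    rw [h, Multiset.map_add, Multiset.sum_add, ih, Multiset.map_cons, Multiset.sum_cons,
      Multiset.map_map]
    rfl

theorem last_notMem_des (k : ℕ) (u : Equiv.Perm (Fin (k + 1))) (hu : u (Fin.last k) = Fin.last k) :
    k ∉ Des u := by
  rw [Des, Finset.mem_filter]
  rintro ⟨-, a, b, ha, hb, hlt⟩
  have hbk : b = Fin.last k := Fin.ext (by rw [Fin.val_last]; exact hb)
  rw [hbk, hu] at hlt
  exact absurd hlt (not_lt.2 (Fin.le_last _))

theorem des_insert_iff (k : ℕ) (J : Finset ℕ) (u : Equiv.Perm (Fin (k + 1)))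
    (hu : u (Fin.last k) = Fin.last k) : Des u ⊆ insert k J ↔ Des u ⊆ J := by
  constructor
  · intro h x hx
    have h1 := h hx
    rw [Finset.mem_insert] at h1
    rcases h1 with rfl | h1
    · exact absurd hx (last_notMem_des _ u hu)
    · exact h1
  · intro h x hx
    exact Finset.mem_insert_of_mem (h hx)

open Classical in
theorem sum_powerset_last (k : ℕ) (J : Finset ℕ) (G : Equiv.Perm (Fin (k + 1)) → ℤ) :
    (∑ K ∈ J.powerset, ∑ u : Equiv.Perm (Fin (k + 1)) with Des u = K,
      if u (Fin.last k) = Fin.last k then G u else 0) =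
      ∑ u : Equiv.Perm (Fin (k + 1)) with Des u ⊆ insert k J,
        if u (Fin.last k) = Fin.last k then G u else 0 := by
  rw [sum_powerset_des, Finset.sum_filter, Finset.sum_filter]
  refine Finset.sum_congr rfl fun u _ => ?_
  by_cases hu : u (Fin.last k) = Fin.last k
  · rw [if_pos hu]
    exact if_congr (des_insert_iff k J u hu).symm rfl rfl
  · rw [if_neg hu, ite_self, ite_self]

open Classical in
/-- The sum over the embedded inverse descent class. -/
theorem sum_invDesExt (k : ℕ) (J : Finset ℕ) (F : Equiv.Perm (Fin (k + 1)) → ℤ) :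
    ((invDesExt k J).map F).sum = ∑ u : Equiv.Perm (Fin (k + 1)) with Des u = J,
      if u (Fin.last k) = Fin.last k then F u⁻¹ else 0 := by
  have h1 : ((invDesExt k J).map F).sum = ∑ σ : Equiv.Perm (Fin (k + 1)),
      if σ (Fin.last k) = Fin.last k ∧ Des σ⁻¹ = J then F σ else 0 := by
    rw [← Finset.sum_filter]
    show (∑ σ ∈ Finset.univ.filter (fun σ : Equiv.Perm (Fin (k + 1)) =>
      ∃ π : Equiv.Perm (Fin k), Des π⁻¹ = J ∧ ∀ i : Fin k, σ i.castSucc = (π i).castSucc), F σ) = _
    refine Finset.sum_congr (Finset.filter_congr fun σ _ => ?_) fun _ _ => rfl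
    exact mem_invDesExt k J σ
  rw [h1, Finset.sum_filter, ← Equiv.sum_comp (Equiv.inv (Equiv.Perm (Fin (k + 1))))]
  refine Finset.sum_congr rfl fun u _ => ?_
  rw [Equiv.inv_apply, inv_inv]
  have h2 : u⁻¹ (Fin.last k) = Fin.last k ↔ u (Fin.last k) = Fin.last k := by
    rw [Equiv.Perm.inv_eq_iff_eq]
    exact eq_comm
  have h5 : (u⁻¹ (Fin.last k) = Fin.last k ∧ Des u = J) ↔
      (Des u = J ∧ u (Fin.last k) = Fin.last k) := by rw [h2, and_comm]
  rw [if_congr h5 rfl rfl]
  by_cases h4 : Des u = J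
  · rw [if_pos h4]
    exact if_congr (and_iff_right h4) rfl rfl
  · rw [if_neg h4, if_neg (fun h => h4 h.1)]

open Classical in
theorem coeff_rot_left (k : ℕ) (J : Finset ℕ) (g : Fin (k + 1) → ℕ) (hg : Monotone g)
    (m : ℕ →₀ ℕ) (hm : cont g = m) :
    MvPowerSeries.coeff m (QF (prodM (rot (k + 1)) (invDesExt k J))) =
      ∑ u : Equiv.Perm (Fin (k + 1)) with Des u = J,
      if u (Fin.last k) = Fin.last k then
        ∑ j ∈ Finset.range (k + 1), (if comp g (finRotate (k + 1) ^ j * u⁻¹) then (1 : ℤ) else 0)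
      else 0 := by
  rw [coeff_QF_comp g hg m hm, sum_prodM, rot, Multiset.map_map]
  simp only [Function.comp_apply, sum_invDesExt]
  change (∑ j ∈ Finset.range (k + 1), ∑ u : Equiv.Perm (Fin (k + 1)) with Des u = J,
      if u (Fin.last k) = Fin.last k then
        (if comp g (finRotate (k + 1) ^ j * u⁻¹) then (1 : ℤ) else 0) else 0) = _
  rw [Finset.sum_comm]
  refine Finset.sum_congr rfl fun u _ => ?_
  by_cases hu : u (Fin.last k) = Fin.last k
  · simp only [if_pos hu]
  · simp only [if_neg hu, Finset.sum_const_zero]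

open Classical in
theorem coeff_rot_right (k : ℕ) (J : Finset ℕ) (g : Fin (k + 1) → ℕ) (hg : Monotone g)
    (m : ℕ →₀ ℕ) (hm : cont g = m) :
    MvPowerSeries.coeff m (QF (prodM (invDesExt k J) (rot (k + 1)))) =
      ∑ u : Equiv.Perm (Fin (k + 1)) with Des u = J,
      if u (Fin.last k) = Fin.last k then
        ∑ j ∈ Finset.range (k + 1), (if comp g (u⁻¹ * finRotate (k + 1) ^ j) then (1 : ℤ) else 0)
      else 0 := by
  rw [coeff_QF_comp g hg m hm, sum_prodM, sum_invDesExt]
  refine Finset.sum_congr rfl fun u _ => ?_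
  refine if_congr Iff.rfl ?_ rfl
  rw [rot, Multiset.map_map]
  rfl

/-- Left and right multiplication of an inverse descent class of `S_k` by the cyclic group of
`S_{k+1}` give the same quasisymmetric function. -/
theorem QF_rot (k : ℕ) (J : Finset ℕ) :
    QF (prodM (rot (k + 1)) (invDesExt k J)) = QF (prodM (invDesExt k J) (rot (k + 1))) := by
  classical
  ext m
  by_cases hW : (W (k + 1) m).Nonempty
  · obtain ⟨w, hw⟩ := hW
    rw [mem_W] at hw
    have hg : Monotone (w ∘ Tuple.sort w) := Tuple.monotone_sort w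
    have hm : cont (w ∘ Tuple.sort w) = m := by rw [cont_comp_perm, hw]
    rw [coeff_rot_left k J _ hg m hm, coeff_rot_right k J _ hg m hm]
    refine eq_of_sum_subset
      (fun J => ∑ u : Equiv.Perm (Fin (k + 1)) with Des u = J,
        if u (Fin.last k) = Fin.last k then
          ∑ j ∈ Finset.range (k + 1),
            (if comp (w ∘ Tuple.sort w) (finRotate (k + 1) ^ j * u⁻¹) then (1 : ℤ) else 0)
        else 0)
      (fun J => ∑ u : Equiv.Perm (Fin (k + 1)) with Des u = J,
        if u (Fin.last k) = Fin.last k then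
          ∑ j ∈ Finset.range (k + 1),
            (if comp (w ∘ Tuple.sort w) (u⁻¹ * finRotate (k + 1) ^ j) then (1 : ℤ) else 0)
        else 0) (fun J => ?_) J
    rw [sum_powerset_last, sum_powerset_last, left_count k J _ hg m hm, right_count k J _ hg m hm]
    exact final_count k J _ hg m hm
  · rw [Finset.not_nonempty_iff_eq_empty] at hW
    rw [coeff_QF, coeff_QF, hW, Finset.sum_empty, Finset.sum_empty]

end Pool.Agent.R859.QS
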